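import Pool.Agent.E8helper31.SX.Basic

/-!
Extensions of sofic groups with amenable quotient.
-/

set_option autoImplicit false

namespace Pool.Agent.E8helper31.SX

open Finset Pool.Agent.H21R2

open Classical in
/-- Amenability of a group, in the form of Folner's condition: there are nonempty finite sets `T`
such that all elements `s` of a given finite set move at most `ε |T|` elements of `T` out of
`T`. -/
def Amenable (Γ : Type*) [Group Γ] : Prop :=
  ∀ (S : Finset Γ) (ε : ℝ), 0 < ε → ∃ T : Finset Γ, T.Nonempty ∧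
    ∀ s ∈ S, ((T.filter fun t => s * t ∉ T).card : ℝ) ≤ ε * T.card

theorem sofic_by_amenable {G : Type*} [Group G] (N : Subgroup G) [N.Normal] (hN : IsSofic N)
    (hA : Amenable (G ⧸ N)) : IsSofic G := by
  classical
  let s : G ⧸ N → G := Quotient.out
  have hs : ∀ y : G ⧸ N, ((s y : G) : G ⧸ N) = y := fun y => Quotient.out_eq y
  have hmem : ∀ (a : G) (y : G ⧸ N), (s (a • y))⁻¹ * a * s y ∈ N := by
    intro a y
    rw [← QuotientGroup.eq_one_iff]
    have : (a • y : G ⧸ N) = (a : G ⧸ N) * y := by
      induction y using QuotientGroup.induction_on with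
      | H z => rfl
    rw [QuotientGroup.mk_mul, QuotientGroup.mk_mul, QuotientGroup.mk_inv, hs, hs, this]
    group
  have hact : ∀ (a : G) (y : G ⧸ N), (a • y : G ⧸ N) = (a : G ⧸ N) * y := by
    intro a y
    induction y using QuotientGroup.induction_on with
    | H z => rfl
  refine isSofic_of_labelled (Y := G ⧸ N) (L := N) hN
    (fun a y => ⟨(s (a • y))⁻¹ * a * s y, hmem a y⟩) ?_ ?_
  · intro a b y
    apply Subtype.ext
    simp only [Subgroup.coe_mul, mul_smul]
    group
  · intro A g hg ε hε
    obtain ⟨T, hT, hT2⟩ := hA (A.image (QuotientGroup.mk' N) ∪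
      A.image (fun a => (QuotientGroup.mk' N a)⁻¹)) (ε / 2) (by positivity)
    have hT0 : (0 : ℝ) < T.card := by exact_mod_cast hT.card_pos
    let f : (G ⧸ N) →₀ ℝ := Finsupp.onFinset T (fun y => if y ∈ T then 1 else 0) (by
      intro y hy
      by_contra h
      simp [h] at hy)
    have hf : ∀ y, f y = if y ∈ T then 1 else 0 := fun y => rfl
    have hmass : mass f (fun y => g • y ≠ y ∨
        (⟨(s (g • y))⁻¹ * g * s y, hmem g y⟩ : N) ≠ 1) = T.card := by
      rw [mass_eq_sum f _ T (Finsupp.support_onFinset_subset)]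
      rw [filter_true_of_mem]
      · rw [sum_congr rfl (g := fun _ => (1 : ℝ))]
        · simp
        · intro y hy
          simp [hf, hy]
      · intro y _
        by_contra h
        push Not at h
        obtain ⟨h1, h2⟩ := h
        apply hg
        have h3 := congrArg Subtype.val h2
        simp only [h1, OneMemClass.coe_one] at h3
        have h4 : g = s y * ((s y)⁻¹ * g * s y) * (s y)⁻¹ := by group
        rw [h3] at h4
        simpa using h4
    refine ⟨f, ?_, ?_⟩
    · rw [hmass]; exact hT0
    · intro a ha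
      rw [hmass]
      let D : Finset (G ⧸ N) := T ∪ T.image (fun t => (a : G ⧸ N)⁻¹ * t)
      have hD : ∀ y, y ∉ D → f y = 0 ∧ f ((MulAction.toPerm a : Equiv.Perm (G ⧸ N)) y) = 0 := by
        intro y hy
        simp only [D, mem_union, mem_image, not_or, not_exists, not_and] at hy
        refine ⟨by simp [hf, hy.1], ?_⟩
        rw [hf, if_neg]
        intro h
        apply hy.2 _ h
        simp only [MulAction.toPerm_apply]
        rw [hact, inv_mul_cancel_left]
      rw [energy_eq_sum f _ D hD]
      have h1 : ∑ y ∈ D, (f ((MulAction.toPerm a : Equiv.Perm (G ⧸ N)) y) - f y) ^ 2 ≤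
          ((T.filter fun t => (a : G ⧸ N) * t ∉ T).card : ℝ) +
          ((T.filter fun t => (a : G ⧸ N)⁻¹ * t ∉ T).card : ℝ) := by
        have h2 : ∀ y ∈ D, (f ((MulAction.toPerm a : Equiv.Perm (G ⧸ N)) y) - f y) ^ 2 =
            if y ∈ (T.filter fun t => (a : G ⧸ N) * t ∉ T) ∪
              (T.filter fun t => (a : G ⧸ N)⁻¹ * t ∉ T).image (fun t => (a : G ⧸ N)⁻¹ * t)
            then 1 else 0 := by
          intro y _
          simp only [MulAction.toPerm_apply, hf, hact, mem_union, mem_filter, mem_image]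
          have h3 : (∃ t, (t ∈ T ∧ (a : G ⧸ N)⁻¹ * t ∉ T) ∧ (a : G ⧸ N)⁻¹ * t = y) ↔
              ((a : G ⧸ N) * y ∈ T ∧ y ∉ T) := by
            constructor
            · rintro ⟨t, ⟨h1, h2⟩, rfl⟩
              exact ⟨by simpa using h1, h2⟩
            · rintro ⟨h1, h2⟩
              exact ⟨(a : G ⧸ N) * y, ⟨h1, by simpa using h2⟩, by simp⟩
          rw [h3]
          by_cases hy1 : y ∈ T <;> by_cases hy2 : (a : G ⧸ N) * y ∈ T <;> simp [hy1, hy2]
        rw [sum_congr rfl h2, ← sum_filter, sum_const, nsmul_eq_mul, mul_one]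
        norm_cast
        refine le_trans (card_le_card (t := (T.filter fun t => (a : G ⧸ N) * t ∉ T) ∪
              (T.filter fun t => (a : G ⧸ N)⁻¹ * t ∉ T).image (fun t => (a : G ⧸ N)⁻¹ * t)) ?_) ?_
        · intro y hy
          exact (mem_filter.1 hy).2
        · refine (card_union_le _ _).trans ?_
          exact add_le_add le_rfl card_image_le
      have h5 : ((T.filter fun t => (a : G ⧸ N) * t ∉ T).card : ℝ) ≤ ε / 2 * T.card := by
        convert hT2 (a : G ⧸ N) (mem_union_left _ (mem_image_of_mem (QuotientGroup.mk' N) ha))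
      have h6 : ((T.filter fun t => (a : G ⧸ N)⁻¹ * t ∉ T).card : ℝ) ≤ ε / 2 * T.card := by
        convert hT2 ((a : G ⧸ N)⁻¹) (mem_union_right _ (mem_image_of_mem (fun a => (QuotientGroup.mk' N a)⁻¹) ha))
      calc _ ≤ _ := h1
        _ ≤ ε / 2 * T.card + ε / 2 * T.card := add_le_add h5 h6
        _ = ε * T.card := by ring

end Pool.Agent.E8helper31.SX
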