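import Pool.Agent.H21R2.Core

/-!
Finitely many nontrivial elements of a free group survive in one finite quotient.
-/

set_option autoImplicit false

namespace Pool.Agent.E8helper31.SX

open Finset Pool.Agent.H21R2

theorem free_sep {α : Type*} (U : Finset (List (α × Bool))) :
    ∃ (B : Finset (FreeGroup α)) (ρ : FreeGroup α →* Equiv.Perm B),
      ∀ L ∈ U, FreeGroup.mk L ≠ 1 → ρ (FreeGroup.mk L) ≠ 1 := by
  classical
  let B : Finset (FreeGroup α) := insert 1 (U.biUnion fun L => (L.tails.toFinset).image FreeGroup.mk)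
  have h1B : (1 : FreeGroup α) ∈ B := mem_insert_self _ _
  have hsuf : ∀ L ∈ U, ∀ L', L' <:+ L → FreeGroup.mk L' ∈ B := by
    intro L hL L' hL'
    refine mem_insert_of_mem (mem_biUnion.2 ⟨L, hL, mem_image.2 ⟨L', ?_, rfl⟩⟩)
    rw [List.mem_toFinset, List.mem_tails]
    exact hL'
  have hex : ∀ x : α, ∃ σ : Equiv.Perm B, ∀ (b : B) (hb : FreeGroup.of x * b.1 ∈ B),
      σ b = ⟨FreeGroup.of x * b.1, hb⟩ := by
    intro x
    obtain ⟨σ, hσ⟩ := exists_perm_extend (α := B) (univ.filter fun b : B => FreeGroup.of x * b.1 ∈ B)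
      (fun b => if h : FreeGroup.of x * b.1 ∈ B then ⟨FreeGroup.of x * b.1, h⟩ else b) (by
        intro y hy z hz h
        simp only [coe_filter, mem_univ, true_and, Set.mem_ofPred_eq] at hy hz
        simp only [hy, hz, dif_pos] at h
        exact Subtype.ext (mul_left_cancel (congrArg Subtype.val h)))
    refine ⟨σ, fun b hb => ?_⟩
    rw [hσ b (by simp [hb])]
    simp [hb]
  choose act hact using hex
  refine ⟨B, FreeGroup.lift act, ?_⟩
  have key : ∀ L (hL : L ∈ U) (L' : List (α × Bool)) (h : L' <:+ L),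
      (FreeGroup.lift act (FreeGroup.mk L') ⟨1, h1B⟩).1 = FreeGroup.mk L' := by
    intro L hL L'
    induction L' with
    | nil =>
      intro h
      rw [← FreeGroup.one_eq_mk, map_one]
      rfl
    | cons a L' ih =>
      intro h
      have h' : L' <:+ L := (List.suffix_cons a L').trans h
      obtain ⟨x, b⟩ := a
      have hmk : FreeGroup.mk ((x, b) :: L') = FreeGroup.mk [(x, b)] * FreeGroup.mk L' := by
        rw [FreeGroup.mul_mk]; rfl
      have hmem := hsuf L hL _ h
      have ih2 : FreeGroup.lift act (FreeGroup.mk L') ⟨1, h1B⟩ =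
        ⟨FreeGroup.mk L', hsuf L hL L' h'⟩ := Subtype.ext (ih h')
      rw [hmk] at hmem
      rw [hmk, map_mul, Equiv.Perm.mul_apply, ih2]
      cases b with
      | true =>
        have h1 : FreeGroup.mk [(x, true)] = FreeGroup.of x := rfl
        rw [h1] at hmem
        rw [h1, FreeGroup.lift_apply_of, hact x _ hmem]
      | false =>
        have h1 : FreeGroup.mk [(x, false)] = (FreeGroup.of x)⁻¹ := rfl
        rw [h1] at hmem
        rw [h1, map_inv, FreeGroup.lift_apply_of]
        have h2 : act x ⟨(FreeGroup.of x)⁻¹ * FreeGroup.mk L', hmem⟩ =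
            ⟨FreeGroup.mk L', hsuf L hL L' h'⟩ := by
          rw [hact x _ (by simpa using hsuf L hL L' h')]
          apply Subtype.ext
          simp
        rw [← h2, ← Equiv.Perm.mul_apply, inv_mul_cancel]
        rfl
  intro L hL hne h
  have h1 := key L hL L List.suffix_rfl
  rw [h] at h1
  exact hne h1.symm

/-- a word which is reduced and not empty is not trivial -/
theorem mk_ne_one {α : Type*} {L : List (α × Bool)} (hL : FreeGroup.IsReduced L) (h : L ≠ []) :
    FreeGroup.mk L ≠ 1 := by
  classical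
  intro h1
  rw [FreeGroup.one_eq_mk] at h1
  have h3 := FreeGroup.Red.exact.1 h1
  obtain ⟨c, hc1, hc2⟩ := h3
  have h4 := (hL.red_iff_eq).1 hc1
  have h5 := FreeGroup.Red.nil_iff.1 hc2
  rw [h4] at h5
  exact h h5

end Pool.Agent.E8helper31.SX
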