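import Pool.Agent.E8helper31.SX.Comb
import Pool.Agent.E8helper31.SX.Free
import Pool.Agent.E8helper31.SX.Amen

/-!
Approximate actions of several groups with a common amenable subgroup on one finite set, such that
the elements outside of the common subgroup are in general position.
-/

set_option autoImplicit false

namespace Pool.Agent.E8helper31.SX

open Finset Pool.Agent.H21R2

universe u v

section words

variable {ι : Type u} {G : ι → Type u}

/-- the product of the permutations belonging to the letters of a word -/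
def prodW {X : Type v} (ψ : ∀ i, G i → Equiv.Perm X) (w : List (Σ i, G i)) : Equiv.Perm X :=
  (w.map fun l => ψ l.1 l.2).prod

theorem prodW_nil {X : Type v} (ψ : ∀ i, G i → Equiv.Perm X) : prodW ψ [] = 1 := rfl

theorem prodW_cons {X : Type v} (ψ : ∀ i, G i → Equiv.Perm X) (l : Σ i, G i)
    (w : List (Σ i, G i)) (x : X) : prodW ψ (l :: w) x = ψ l.1 l.2 (prodW ψ w x) := by
  simp [prodW]

variable {X Z : Type v} (o : X → Z)

/-- the word in the free group belonging to the path of the point `x` along the word `w` -/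
def wd (ψ : ∀ i, G i → Equiv.Perm X) :
    List (Σ i, G i) → X → List ((ι × Z) × Bool)
  | [], _ => []
  | l :: w, x => ((l.1, o (ψ l.1 l.2 (prodW ψ w x))), true) ::
      ((l.1, o (prodW ψ w x)), false) :: wd ψ w x

/-- each letter of the word `w` changes the label on the path of `x` -/
def GoodW (ψ : ∀ i, G i → Equiv.Perm X) : List (Σ i, G i) → X → Prop
  | [], _ => True
  | l :: w, x => o (ψ l.1 l.2 (prodW ψ w x)) ≠ o (prodW ψ w x) ∧ GoodW ψ w x

theorem wd_reduced (ψ : ∀ i, G i → Equiv.Perm X) (w : List (Σ i, G i)) (x : X)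
    (hw : w.IsChain fun a b => a.1 ≠ b.1) (hg : GoodW o ψ w x) :
    FreeGroup.IsReduced (wd o ψ w x) := by
  induction w with
  | nil => exact FreeGroup.IsReduced.nil
  | cons l w ih =>
    have ih' := ih hw.tail hg.2
    simp only [wd]
    rw [FreeGroup.isReduced_cons_cons]
    refine ⟨fun h => absurd (congrArg Prod.snd h) hg.1, ?_⟩
    cases w with
    | nil => exact FreeGroup.IsReduced.singleton
    | cons l' w' =>
      simp only [wd] at ih' ⊢
      rw [FreeGroup.isReduced_cons_cons]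
      refine ⟨fun h => ?_, ih'⟩
      rw [List.isChain_cons_cons] at hw
      exact absurd (congrArg Prod.fst h) hw.1

theorem dens_not_goodW [Fintype X] (ψ : ∀ i, G i → Equiv.Perm X)
    (w : List (Σ i, G i)) (ε : ℝ)
    (h : ∀ l ∈ w, dens (fun x => o (ψ l.1 l.2 x) = o x) ≤ ε) :
    dens (fun x => ¬ GoodW o ψ w x) ≤ w.length * ε := by
  induction w with
  | nil =>
    simp only [GoodW, not_true_eq_false, dens_false, List.length_nil, Nat.cast_zero, zero_mul]
    exact le_rfl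
  | cons l w ih =>
    have ih' := ih fun l' hl' => h l' (List.mem_cons_of_mem _ hl')
    have h1 : dens (fun x => ¬ GoodW o ψ (l :: w) x) ≤
        dens (fun x => o (ψ l.1 l.2 (prodW ψ w x)) = o (prodW ψ w x)) +
        dens (fun x => ¬ GoodW o ψ w x) := by
      refine le_trans (dens_mono ?_) (dens_or _ _)
      intro x hx
      by_contra hcon
      push Not at hcon
      exact hx ⟨hcon.1, hcon.2⟩
    have h2 : dens (fun x => o (ψ l.1 l.2 (prodW ψ w x)) = o (prodW ψ w x)) =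
        dens (fun x => o (ψ l.1 l.2 x) = o x) :=
      dens_equiv (prodW ψ w) (fun x => o (ψ l.1 l.2 x) = o x)
    have h3 := h l List.mem_cons_self
    rw [List.length_cons]
    push_cast
    linarith

/-- the words of length at most `m` with letters in `S` -/
noncomputable def LS [DecidableEq (Σ i, G i)] (S : Finset (Σ i, G i)) :
    ℕ → Finset (List (Σ i, G i))
  | 0 => {[]}
  | m + 1 => insert [] (image₂ List.cons S (LS S m))

theorem mem_LS [DecidableEq (Σ i, G i)] (S : Finset (Σ i, G i)) (m : ℕ) (w : List (Σ i, G i))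
    (h1 : w.length ≤ m) (h2 : ∀ l ∈ w, l ∈ S) : w ∈ LS S m := by
  induction m generalizing w with
  | zero =>
    have : w = [] := List.length_eq_zero_iff.1 (by omega)
    simp [this, LS]
  | succ m ih =>
    cases w with
    | nil => simp [LS]
    | cons l w =>
      refine mem_insert_of_mem (mem_image₂.2 ⟨l, h2 l List.mem_cons_self, w, ?_, rfl⟩)
      exact ih w (by simpa using h1) fun l' hl' => h2 l' (List.mem_cons_of_mem _ hl')

/-- a twisted permutation -/
def tw {X Q : Type*} [Group Q] (σ : Equiv.Perm X) (c : X → Q) : Equiv.Perm (X × Q) where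
  toFun p := (σ p.1, c p.1 * p.2)
  invFun p := (σ.symm p.1, (c (σ.symm p.1))⁻¹ * p.2)
  left_inv p := by simp
  right_inv p := by simp

theorem tw_apply {X Q : Type*} [Group Q] (σ : Equiv.Perm X) (c : X → Q) (p : X × Q) :
    tw σ c p = (σ p.1, c p.1 * p.2) := rfl

theorem prodW_tw {Q : Type*} [Group Q] (ψ : ∀ i, G i → Equiv.Perm X)
    (ρ : FreeGroup (ι × Z) →* Q) (Θ : ∀ i, G i → Equiv.Perm (X × Q))
    (hΘ : ∀ i g, Θ i g = tw (ψ i g) fun x =>
      ρ (FreeGroup.of (i, o (ψ i g x)) * (FreeGroup.of (i, o x))⁻¹))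
    (w : List (Σ i, G i)) (x : X) (q : Q) :
    prodW Θ w (x, q) = (prodW ψ w x, ρ (FreeGroup.mk (wd o ψ w x)) * q) := by
  induction w with
  | nil =>
    simp only [prodW_nil, Equiv.Perm.coe_one, id_eq, wd]
    rw [← FreeGroup.one_eq_mk, map_one, one_mul]
  | cons l w ih =>
    rw [prodW_cons, ih, hΘ, tw_apply, prodW_cons]
    refine Prod.ext rfl ?_
    simp only [wd]
    have h1 : FreeGroup.mk (((l.1, o (ψ l.1 l.2 (prodW ψ w x))), true) ::
        ((l.1, o (prodW ψ w x)), false) :: wd o ψ w x) =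
        (FreeGroup.of (l.1, o (ψ l.1 l.2 (prodW ψ w x))) *
          (FreeGroup.of (l.1, o (prodW ψ w x)))⁻¹) * FreeGroup.mk (wd o ψ w x) := by
      rw [FreeGroup.of, FreeGroup.of, FreeGroup.inv_mk, FreeGroup.mul_mk, FreeGroup.mul_mk]
      rfl
    rw [h1, map_mul ρ _ (FreeGroup.mk (wd o ψ w x)), mul_assoc]

end words

variable {ι : Type u} {G : ι → Type u} [∀ i, Group (G i)] {H : Type u} [Group H]

theorem exists_data (i₀ : ι) (φ : ∀ i, H →* G i) (hφ : ∀ i, Function.Injective (φ i))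
    (hH : Amenable H) (hG : ∀ i, IsSofic (G i)) (S : Finset (Σ i, G i)) (ε : ℝ)
    (hε : 0 < ε) (m : ℕ) :
    ∃ (Y : Type u) (_ : Fintype Y) (_ : Nonempty Y) (Θ : ∀ i, G i → Equiv.Perm Y),
      (∀ i a b, (⟨i, a⟩ : Σ i, G i) ∈ S → (⟨i, b⟩ : Σ i, G i) ∈ S →
        dens (fun y => Θ i (a * b) y ≠ Θ i a (Θ i b y)) ≤ ε) ∧
      (∀ i i' h, (⟨i, φ i h⟩ : Σ i, G i) ∈ S → (⟨i', φ i' h⟩ : Σ i, G i) ∈ S →
        dens (fun y => Θ i (φ i h) y ≠ Θ i' (φ i' h) y) ≤ ε) ∧
      (∀ i g, g ≠ 1 → (⟨i, g⟩ : Σ i, G i) ∈ S → dens (fun y => Θ i g y = y) ≤ ε) ∧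
      (∀ w : List (Σ i, G i), w ≠ [] → w.length ≤ m → (∀ l ∈ w, l ∈ S) →
        (∀ l ∈ w, l.2 ∉ (φ l.1).range) → (w.IsChain fun a b => a.1 ≠ b.1) →
        dens (fun y => prodW Θ w y = y) ≤ w.length * ε) := by
  classical
  -- the finite part of the common subgroup
  let T : Finset H := S.biUnion fun s => if h : ∃ h, φ s.1 h = s.2 then {h.choose} else ∅
  have hT : ∀ i h, (⟨i, φ i h⟩ : Σ i, G i) ∈ S → h ∈ T := by
    intro i h hh
    refine mem_biUnion.2 ⟨_, hh, ?_⟩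
    have h1 : ∃ h', φ i h' = φ i h := ⟨h, rfl⟩
    simp only [h1, dif_pos, mem_singleton]
    exact (hφ i h1.choose_spec).symm
  obtain ⟨P, hP, hP2⟩ := hH (T ∪ T.image (·⁻¹)) (ε / 18) (by positivity)
  have hT1 : ∀ h ∈ T, ((P.filter fun t => h * t ∉ P).card : ℝ) ≤ ε / 18 * P.card := by
    intro h hh
    convert hP2 h (mem_union_left _ hh)
  have hT2 : ∀ h ∈ T, ((P.filter fun t => h⁻¹ * t ∉ P).card : ℝ) ≤ ε / 18 * P.card := by
    intro h hh
    convert hP2 h⁻¹ (mem_union_right _ (mem_image_of_mem _ hh))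
  let I₀ : Finset ι := insert i₀ (S.image Sigma.fst)
  let Si : ∀ i, Finset (G i) := fun i => S.preimage (Sigma.mk i) (sigma_mk_injective.injOn)
  have hSi : ∀ i g, g ∈ Si i ↔ (⟨i, g⟩ : Σ i, G i) ∈ S := fun i g => by simp [Si]
  let F : ∀ i, Finset (G i) := fun i =>
    ((Si i ∪ P.image (φ i)) ∪ T.image (φ i)) ∪ (image₂ (fun g p => g * φ i p) (Si i) P ∪ {1})
  have hFS : ∀ i, ∀ g ∈ Si i, g ∈ F i := fun i g hg =>
    mem_union_left _ (mem_union_left _ (mem_union_left _ hg))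
  have hFP : ∀ i, ∀ p ∈ P, φ i p ∈ F i := fun i p hp =>
    mem_union_left _ (mem_union_left _ (mem_union_right _ (mem_image_of_mem _ hp)))
  have hFT : ∀ i, ∀ p ∈ T, φ i p ∈ F i := fun i p hp =>
    mem_union_left _ (mem_union_right _ (mem_image_of_mem _ hp))
  have hFSP : ∀ i, ∀ g ∈ Si i, ∀ p ∈ P, g * φ i p ∈ F i := fun i g hg p hp =>
    mem_union_right _ (mem_union_left _ (mem_image₂.2 ⟨g, hg, p, hp, rfl⟩))
  have hF1 : ∀ i, 1 ∈ F i := fun i => mem_union_right _ (mem_union_right _ (mem_singleton_self _))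
  have hPn : (0 : ℝ) < P.card := by exact_mod_cast hP.card_pos
  have hP1 : (1 : ℝ) ≤ P.card := by exact_mod_cast hP.card_pos
  set J : ℝ := (Fintype.card I₀ : ℝ) with hJ
  have hJ1 : (1 : ℝ) ≤ J := by
    rw [hJ, Fintype.card_coe]
    exact_mod_cast (card_pos.2 ⟨i₀, mem_insert_self _ _⟩)
  set δ : ℝ := ε / (6 * J * P.card ^ 2) with hδ
  have hδ0 : 0 < δ := by positivity
  have hδ1 : δ ≤ ε := by
    rw [hδ, div_le_iff₀ (by positivity)]
    have h1 : (1 : ℝ) ≤ 6 * J * P.card ^ 2 := by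
      have h2 : (1 : ℝ) ≤ J * P.card ^ 2 := by
        have h3 : (1 : ℝ) ≤ (P.card : ℝ) ^ 2 := one_le_pow₀ hP1
        nlinarith
      linarith
    nlinarith
  have hδ2 : J * (P.card * δ) ≤ ε / 6 := by
    have h1 : J * (P.card * δ) = ε / 6 * (1 / P.card) := by
      rw [hδ]; field_simp
    rw [h1]
    have h2 : 1 / (P.card : ℝ) ≤ 1 := by
      rw [div_le_one hPn]; exact hP1
    calc ε / 6 * (1 / P.card) ≤ ε / 6 * 1 := mul_le_mul_of_nonneg_left h2 (by positivity)
      _ = ε / 6 := mul_one _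
  have hδ3 : (P.card : ℝ) * (P.card * (2 * δ)) ≤ ε := by
    have h1 : (P.card : ℝ) * (P.card * (2 * δ)) = ε / 3 * (1 / J) := by
      rw [hδ]; field_simp; ring
    rw [h1]
    have h2 : 1 / J ≤ 1 := by
      rw [div_le_one (by positivity)]; exact hJ1
    calc ε / 3 * (1 / J) ≤ ε / 3 * 1 := mul_le_mul_of_nonneg_left h2 (by positivity)
      _ ≤ ε := by linarith
  choose n hn τ s hτ1 hs hmul hsep hrok using fun i =>
    exists_local (hG i) (φ i) (hφ i) P hP T (ε / 18) (by positivity) hT1 hT2 (F i) δ hδ0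
  have hne : ∀ j : I₀, Nonempty (Fin (n j) × Equiv.Perm (Fin (n j))) := fun j =>
    ⟨(⟨0, hn j⟩, 1)⟩
  let X : I₀ → Type := fun j => Fin (n j) × Equiv.Perm (Fin (n j))
  let φ' : ∀ j : I₀, H →* G j := fun j => φ j
  let τ' : ∀ j : I₀, G j → Equiv.Perm (X j) := fun j => τ j
  let s' : ∀ j : I₀, X j → H := fun j => s j
  let F' : ∀ j : I₀, Finset (G j) := fun j => F j
  let j₀ : I₀ := ⟨i₀, mem_insert_self _ _⟩
  let o : (∀ j, X j) → (∀ j, X j) := lab φ' τ' s' j₀
  let ψ : ∀ i, G i → Equiv.Perm (∀ j, X j) := fun i g =>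
    if h : i ∈ I₀ then PP φ' τ' s' ⟨i, h⟩ g else 1
  have hψ : ∀ i g (h : i ∈ I₀), ψ i g = PP φ' τ' s' ⟨i, h⟩ g := fun i g h => by
    simp only [ψ, h, dif_pos]
  have hI : ∀ s ∈ S, s.1 ∈ I₀ := fun s hs => mem_insert_of_mem (mem_image_of_mem _ hs)
  have c1 : ∀ i a b, (⟨i, a⟩ : Σ i, G i) ∈ S → (⟨i, b⟩ : Σ i, G i) ∈ S →
      dens (fun y => ψ i (a * b) y ≠ ψ i a (ψ i b y)) ≤ ε := by
    intro i a b ha hb
    have hi := hI _ ha
    rw [hψ i _ hi, hψ i _ hi, hψ i _ hi]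
    exact (PP_mul φ' τ' s' F' δ (fun j => hmul j) ⟨i, hi⟩ a b (hFS i a ((hSi i a).2 ha))
      (hFS i b ((hSi i b).2 hb))).trans hδ1
  have c2 : ∀ i h, (⟨i, φ i h⟩ : Σ i, G i) ∈ S →
      dens (fun y => ψ i (φ i h) y ≠ EE φ' τ' h y) ≤ ε / 3 := by
    intro i h hh
    have hi := hI _ hh
    rw [hψ i _ hi]
    have h1 := PP_base φ' τ' s' P (fun j => hs j) T F' (3 * (ε / 18)) δ (fun j => hFP j)
      (fun j => hFT j) (fun j => hmul j) (fun j => hrok j) ⟨i, hi⟩ h (hT i h hh)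
    refine h1.trans ?_
    rw [← hJ]
    linarith
  have c3 : ∀ i h, (⟨i, φ i h⟩ : Σ i, G i) ∈ S →
      dens (fun y => o (EE φ' τ' h y) ≠ o y) ≤ ε / 3 := by
    intro i h hh
    have h1 := lab_EE φ' τ' s' P (fun j => hs j) T F' (3 * (ε / 18)) δ (fun j => hFP j)
      (fun j => hFT j) (fun j => hmul j) (fun j => hrok j) j₀ h (hT i h hh)
    refine h1.trans ?_
    rw [← hJ]
    linarith
  have c4 : ∀ i g, (⟨i, g⟩ : Σ i, G i) ∈ S → g ∉ (φ i).range →
      dens (fun y => o (ψ i g y) = o y) ≤ ε := by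
    intro i g hg hg2
    have hi := hI _ hg
    rw [hψ i _ hi]
    have hg1 := (hSi i g).2 hg
    exact (lab_PP φ' τ' s' P (fun j => hs j) F' δ (fun j => hFP j)
      (fun j => hmul j) (fun j => hsep j) j₀ ⟨i, hi⟩ g (hFS i g hg1) hg2
      (fun q hq => hFSP i g hg1 q hq)).trans hδ3
  have c5 : ∀ i g, g ≠ 1 → (⟨i, g⟩ : Σ i, G i) ∈ S → dens (fun y => ψ i g y = y) ≤ ε := by
    intro i g hg1 hg
    have hi := hI _ hg
    rw [hψ i _ hi]
    exact (PP_free φ' τ' s' F' δ (fun j => hsep j) ⟨i, hi⟩ (hτ1 i) g (hF1 i)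
      (hFS i g ((hSi i g).2 hg)) hg1).trans hδ1
  let U : Finset (List ((ι × (∀ j, X j)) × Bool)) :=
    image₂ (fun w x => wd o ψ w x) (LS S m) (univ : Finset (∀ j, X j))
  obtain ⟨B, ρ, hρ⟩ := free_sep U
  let Θ : ∀ i, G i → Equiv.Perm ((∀ j, X j) × Equiv.Perm B) := fun i g =>
    tw (ψ i g) fun x => ρ (FreeGroup.of (i, o (ψ i g x)) * (FreeGroup.of (i, o x))⁻¹)
  have hΘ : ∀ i g, Θ i g = tw (ψ i g) fun x =>
      ρ (FreeGroup.of (i, o (ψ i g x)) * (FreeGroup.of (i, o x))⁻¹) := fun i g => rfl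
  refine ⟨(∀ j, X j) × Equiv.Perm B, inferInstance, inferInstance, Θ, ?_, ?_, ?_, ?_⟩
  · intro i a b ha hb
    refine le_trans ?_ (c1 i a b ha hb)
    rw [← dens_fst (Y := Equiv.Perm B) (fun p => ψ i (a * b) p ≠ ψ i a (ψ i b p))]
    apply dens_mono
    intro p hp hcon
    apply hp
    rw [hΘ, hΘ, hΘ, tw_apply, tw_apply, tw_apply]
    refine Prod.ext hcon ?_
    simp only [hcon]
    rw [← mul_assoc, ← map_mul]
    congr 2
    group
  · intro i i' h h1 h2
    have e1 := c2 i h h1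
    have e2 := c2 i' h h2
    have e3 := c3 i h h1
    have e4 : dens (fun p : (∀ j, X j) × Equiv.Perm B => Θ i (φ i h) p ≠ Θ i' (φ i' h) p) ≤
        dens (fun p : (∀ j, X j) × Equiv.Perm B => (ψ i (φ i h) p.1 ≠ EE φ' τ' h p.1 ∨
          ψ i' (φ i' h) p.1 ≠ EE φ' τ' h p.1) ∨ o (EE φ' τ' h p.1) ≠ o p.1) := by
      apply dens_mono
      intro p hp
      by_contra hcon
      push Not at hcon
      obtain ⟨⟨h3, h4⟩, h5⟩ := hcon
      apply hp
      rw [hΘ, hΘ, tw_apply, tw_apply]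
      simp only [h3, h4, h5, mul_inv_cancel, map_one, one_mul]
    rw [dens_fst (Y := Equiv.Perm B) (fun x => (ψ i (φ i h) x ≠ EE φ' τ' h x ∨
          ψ i' (φ i' h) x ≠ EE φ' τ' h x) ∨ o (EE φ' τ' h x) ≠ o x)] at e4
    have e5 := dens_or (fun x => ψ i (φ i h) x ≠ EE φ' τ' h x ∨
          ψ i' (φ i' h) x ≠ EE φ' τ' h x) (fun x => o (EE φ' τ' h x) ≠ o x)
    have e6 := dens_or (fun x => ψ i (φ i h) x ≠ EE φ' τ' h x) (fun x =>
          ψ i' (φ i' h) x ≠ EE φ' τ' h x)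
    linarith
  · intro i g hg1 hg
    refine le_trans ?_ (c5 i g hg1 hg)
    rw [← dens_fst (Y := Equiv.Perm B) (fun p => ψ i g p = p)]
    apply dens_mono
    intro p hp
    rw [hΘ, tw_apply] at hp
    exact congrArg Prod.fst hp
  · intro w hw1 hw2 hw3 hw4 hw5
    refine le_trans ?_ (dens_not_goodW o ψ w ε fun l hl =>
      c4 l.1 l.2 (hw3 l hl) (hw4 l hl))
    rw [← dens_fst (Y := Equiv.Perm B) (fun x => ¬ GoodW o ψ w x)]
    apply dens_mono
    rintro ⟨x, q⟩ hx hgood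
    rw [prodW_tw o ψ ρ Θ hΘ] at hx
    have h1 : ρ (FreeGroup.mk (wd o ψ w x)) * q = q := congrArg Prod.snd hx
    have h2 := mul_eq_right.1 h1
    refine hρ (wd o ψ w x) (mem_image₂.2 ⟨w, mem_LS S m w hw2 hw3, x, mem_univ _, rfl⟩) ?_ h2
    apply mk_ne_one (wd_reduced o ψ w x hw5 hgood)
    cases w with
    | nil => exact absurd rfl hw1
    | cons l w => simp [wd]

end Pool.Agent.E8helper31.SX
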