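import Pool.Agent.E8helper31.SX.Amen

/-!
Closure properties of the class of amenable groups.
-/

set_option autoImplicit false

namespace Pool.Agent.E8helper31.SX

open Finset Pool.Agent.H21R2
open scoped commutatorElement

theorem amenable_of_equiv {G K : Type*} [Group G] [Group K] (e : G ≃* K) (hG : Amenable G) :
    Amenable K := by
  classical
  intro S ε hε
  obtain ⟨T, hT, h⟩ := hG (S.image e.symm) ε hε
  refine ⟨T.image e, hT.image e, fun s hs => ?_⟩
  have h1 := h (e.symm s) (mem_image_of_mem _ hs)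
  rw [card_image_of_injective _ e.injective]
  refine le_trans ?_ h1
  norm_cast
  refine le_trans (card_le_card (t := (T.filter fun t => e.symm s * t ∉ T).image e) ?_)
    (card_image_le.trans (le_of_eq (by congr!)))
  intro y hy
  obtain ⟨h2, h3⟩ := mem_filter.1 hy
  obtain ⟨t, ht, rfl⟩ := mem_image.1 h2
  refine mem_image_of_mem e (mem_filter.2 ⟨ht, fun h4 => h3 ?_⟩)
  exact mem_image.2 ⟨_, h4, by simp⟩

theorem amenable_of_directed {G : Type*} [Group G]
    (h : ∀ S : Finset G, ∃ K : Subgroup G, (S : Set G) ⊆ K ∧ Amenable K) : Amenable G := by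
  classical
  intro S ε hε
  obtain ⟨K, hSK, hK⟩ := h S
  obtain ⟨T, hT, h1⟩ := hK (S.subtype (· ∈ K)) ε hε
  refine ⟨T.image Subtype.val, hT.image _, fun s hs => ?_⟩
  have h2 := h1 ⟨s, hSK hs⟩ (by simpa using hs)
  rw [card_image_of_injective _ Subtype.val_injective]
  refine le_trans ?_ h2
  norm_cast
  refine le_trans (card_le_card
    (t := (T.filter fun t => (⟨s, hSK hs⟩ : K) * t ∉ T).image Subtype.val) ?_)
    (card_image_le.trans (le_of_eq (by congr!)))
  intro y hy
  obtain ⟨h2, h3⟩ := mem_filter.1 hy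
  obtain ⟨t, ht, rfl⟩ := mem_image.1 h2
  refine mem_image_of_mem _ (mem_filter.2 ⟨ht, fun h4 => h3 ?_⟩)
  exact mem_image.2 ⟨_, h4, rfl⟩

theorem amenable_of_finite {G : Type*} [Group G] [Finite G] : Amenable G := by
  classical
  have := Fintype.ofFinite G
  intro S ε hε
  refine ⟨univ, ⟨1, mem_univ _⟩, fun s _ => ?_⟩
  have : (univ.filter fun t : G => s * t ∉ (univ : Finset G)) = ∅ := by
    ext t; simp
  rw [this]
  simp only [card_empty, Nat.cast_zero]
  positivity

/-- all finitely generated subgroups are finite -/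
def LocallyFinite (H : Type*) [Group H] : Prop :=
  ∀ S : Finset H, Finite (Subgroup.closure (S : Set H))

theorem amenable_of_locallyFinite {G : Type*} [Group G] (h : LocallyFinite G) : Amenable G :=
  amenable_of_directed fun S => ⟨Subgroup.closure (S : Set G), Subgroup.subset_closure,
    have := h S; amenable_of_finite⟩

theorem amenable_ext {G : Type*} [Group G] (N : Subgroup G) [N.Normal] (hN : Amenable N)
    (hQ : Amenable (G ⧸ N)) : Amenable G := by
  classical
  let s : G ⧸ N → G := Quotient.out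
  have hs : ∀ y : G ⧸ N, ((s y : G) : G ⧸ N) = y := fun y => Quotient.out_eq y
  have hmem : ∀ (a : G) (y : G ⧸ N), (s ((a : G ⧸ N) * y))⁻¹ * a * s y ∈ N := by
    intro a y
    rw [← QuotientGroup.eq_one_iff]
    rw [QuotientGroup.mk_mul, QuotientGroup.mk_mul, QuotientGroup.mk_inv, hs, hs]
    group
  let c : G → G ⧸ N → N := fun a y => ⟨(s ((a : G ⧸ N) * y))⁻¹ * a * s y, hmem a y⟩
  have hc : ∀ (a : G) (y : G ⧸ N), a * s y = s ((a : G ⧸ N) * y) * (c a y : G) := by
    intro a y
    simp only [c]
    rw [mul_assoc, mul_inv_cancel_left]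
  intro S ε hε
  obtain ⟨T, hT, hT2⟩ := hQ (S.image (QuotientGroup.mk' N)) (ε / 2) (by positivity)
  obtain ⟨F, hF, hF2⟩ := hN (image₂ (fun a y => c a y) S T) (ε / 2) (by positivity)
  let W : Finset G := (T ×ˢ F).image (fun p : (G ⧸ N) × N => s p.1 * (p.2 : G))
  have hinj : Function.Injective (fun p : (G ⧸ N) × N => s p.1 * (p.2 : G)) := by
    rintro ⟨t, f⟩ ⟨t', f'⟩ h
    simp only at h
    have h1 : ((s t * (f : N) : G) : G ⧸ N) = ((s t' * (f' : N) : G) : G ⧸ N) :=
      congrArg _ h
    rw [QuotientGroup.mk_mul, QuotientGroup.mk_mul, hs, hs,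
      (QuotientGroup.eq_one_iff _).2 f.2, (QuotientGroup.eq_one_iff _).2 f'.2, mul_one,
      mul_one] at h1
    subst h1
    exact Prod.ext rfl (Subtype.ext (mul_left_cancel h))
  have hWcard : W.card = T.card * F.card := by
    rw [card_image_of_injective _ hinj, card_product]
  refine ⟨W, (hT.product hF).image _, fun a ha => ?_⟩
  have hsub : (W.filter fun w => a * w ∉ W) ⊆
      (((T.filter fun t => (a : G ⧸ N) * t ∉ T) ×ˢ F) ∪
      T.biUnion fun t => {t} ×ˢ (F.filter fun f => c a t * f ∉ F)).image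
        (fun p : (G ⧸ N) × N => s p.1 * (p.2 : G)) := by
    intro w hw
    obtain ⟨h1, h2⟩ := mem_filter.1 hw
    obtain ⟨⟨t, f⟩, htf, rfl⟩ := mem_image.1 h1
    obtain ⟨ht, hf⟩ := mem_product.1 htf
    simp only at ht hf
    refine mem_image_of_mem _ ?_
    by_cases h3 : (a : G ⧸ N) * t ∈ T
    · refine mem_union_right _ (mem_biUnion.2 ⟨t, ht, mem_product.2 ⟨mem_singleton_self _,
        mem_filter.2 ⟨hf, fun h4 => h2 ?_⟩⟩⟩)
      refine mem_image.2 ⟨(_, _), mem_product.2 ⟨h3, h4⟩, ?_⟩
      show s ((a : G ⧸ N) * t) * ((c a t : G) * (f : G)) = a * (s t * (f : G))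
      rw [← mul_assoc, ← hc, mul_assoc]
    · exact mem_union_left _ (mem_product.2 ⟨mem_filter.2 ⟨ht, h3⟩, hf⟩)
  have h5 : ((T.filter fun t => (a : G ⧸ N) * t ∉ T).card : ℝ) ≤ ε / 2 * T.card := by
    refine le_trans (le_of_eq ?_) (hT2 (a : G ⧸ N) (mem_image_of_mem (QuotientGroup.mk' N) ha))
    congr!
  have h6 : ∀ t ∈ T, ((F.filter fun f => c a t * f ∉ F).card : ℝ) ≤ ε / 2 * F.card := by
    intro t ht
    refine le_trans (le_of_eq ?_) (hF2 _ (mem_image₂.2 ⟨a, ha, t, ht, rfl⟩))
    congr!
  have h7 : ((W.filter fun w => a * w ∉ W).card : ℝ) ≤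
      ((T.filter fun t => (a : G ⧸ N) * t ∉ T).card : ℝ) * F.card +
      ∑ t ∈ T, ((F.filter fun f => c a t * f ∉ F).card : ℝ) := by
    have h8 := (card_le_card hsub).trans (card_image_le.trans (card_union_le _ _))
    rw [card_product] at h8
    have h10 := card_biUnion_le (s := T)
      (t := fun t => ({t} : Finset (G ⧸ N)) ×ˢ (F.filter fun f => c a t * f ∉ F))
    have h11 : ∑ t ∈ T, (({t} : Finset (G ⧸ N)) ×ˢ (F.filter fun f => c a t * f ∉ F)).card =
        ∑ t ∈ T, (F.filter fun f => c a t * f ∉ F).card :=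
      sum_congr rfl fun t _ => by rw [card_product, card_singleton, one_mul]
    rw [h11] at h10
    exact_mod_cast h8.trans (Nat.add_le_add_left h10 _)
  have h12 := sum_le_sum h6
  rw [sum_const, nsmul_eq_mul] at h12
  have h13 : ((W.filter fun w => a * w ∉ W).card : ℝ) ≤ ε * W.card := by
    rw [hWcard]
    push_cast
    calc _ ≤ _ := h7
      _ ≤ ε / 2 * T.card * F.card + T.card * (ε / 2 * F.card) :=
        add_le_add (mul_le_mul_of_nonneg_right h5 (Nat.cast_nonneg _)) h12
      _ = ε * (T.card * F.card) := by ring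
  refine le_trans (le_of_eq ?_) h13
  congr!

theorem amenable_of_cyclic {G : Type*} [Group G] (g : G) (hg : ∀ x : G, x ∈ Subgroup.zpowers g) :
    Amenable G := by
  classical
  by_cases hfin : IsOfFinOrder g
  · have h1 : Finite (Subgroup.zpowers g) := finite_zpowers.2 hfin
    have h2 : Finite G := Finite.of_surjective (fun x : Subgroup.zpowers g => (x : G))
      fun x => ⟨⟨x, hg x⟩, rfl⟩
    exact amenable_of_finite
  · have hinj : Function.Injective fun k : ℤ => g ^ k := by
      rw [injective_zpow_iff_not_isOfFinOrder]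
      exact hfin
    choose k hk using fun x => Subgroup.mem_zpowers_iff.1 (hg x)
    have hk' : ∀ x, g ^ k x = x := hk
    intro S ε hε
    obtain ⟨K, hK⟩ : ∃ K : ℕ, ∀ s ∈ S, (k s).natAbs ≤ K :=
      ⟨S.sup fun s => (k s).natAbs, fun s hs => le_sup (f := fun s => (k s).natAbs) hs⟩
    obtain ⟨n, hn⟩ := exists_nat_gt ((2 * K : ℝ) / ε)
    have hn0 : 0 < n := by
      rcases Nat.eq_zero_or_pos n with h | h
      · subst h
        have : (0 : ℝ) ≤ (2 * K : ℝ) / ε := by positivity
        push_cast at hn
        linarith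
      · exact h
    rw [div_lt_iff₀ hε] at hn
    refine ⟨(Finset.Ico (0 : ℤ) n).image (g ^ ·), ⟨_, mem_image_of_mem _
      (mem_Ico.2 ⟨le_rfl, by exact_mod_cast hn0⟩)⟩, fun s hs => ?_⟩
    rw [card_image_of_injective _ hinj, Int.card_Ico]
    have hsub : ((Finset.Ico (0 : ℤ) n).image (g ^ ·)).filter
        (fun t => s * t ∉ (Finset.Ico (0 : ℤ) n).image (g ^ ·)) ⊆
        ((Finset.Ico (0 : ℤ) K) ∪ (Finset.Ico (n - K : ℤ) n)).image (g ^ ·) := by
      intro t ht
      obtain ⟨h1, h2⟩ := mem_filter.1 ht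
      obtain ⟨i, hi, rfl⟩ := mem_image.1 h1
      refine mem_image_of_mem _ ?_
      have h3 : s * g ^ i = g ^ (k s + i) := by
        rw [zpow_add, hk']
      rw [h3] at h2
      have h4 : ¬ (0 ≤ k s + i ∧ k s + i < n) := fun h => h2 (mem_image_of_mem _ (mem_Ico.2 h))
      have h5 := hK s hs
      simp only [mem_union, mem_Ico] at hi ⊢
      omega
    have h1 := (card_le_card hsub).trans card_image_le
    have h2 := h1.trans (card_union_le _ _)
    rw [Int.card_Ico, Int.card_Ico] at h2
    have h3 : (((Finset.Ico (0 : ℤ) n).image (g ^ ·)).filter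
        (fun t => s * t ∉ (Finset.Ico (0 : ℤ) n).image (g ^ ·))).card ≤ 2 * K := by
      refine h2.trans ?_
      omega
    have h4 : ((((Finset.Ico (0 : ℤ) n).image (g ^ ·)).filter
        (fun t => s * t ∉ (Finset.Ico (0 : ℤ) n).image (g ^ ·))).card : ℝ) ≤ 2 * K := by
      exact_mod_cast h3
    have h5 : (((n : ℤ) - 0).toNat : ℝ) = n := by simp
    rw [h5]
    refine le_trans (le_of_eq ?_) (h4.trans ?_)
    · congr!
    · linarith

theorem amenable_of_comm {G : Type*} [Group G] (hc : ∀ a b : G, a * b = b * a) :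
    Amenable G := by
  classical
  apply amenable_of_directed
  intro S
  refine ⟨Subgroup.closure (S : Set G), Subgroup.subset_closure, ?_⟩
  induction S using Finset.induction_on with
  | empty =>
    have : Finite (Subgroup.closure ((∅ : Finset G) : Set G)) := by
      rw [coe_empty, Subgroup.closure_empty]
      infer_instance
    exact amenable_of_finite
  | insert a S _ ih =>
    set L : Subgroup G := Subgroup.closure (S : Set G) with hL
    set K : Subgroup G := Subgroup.closure ((insert a S : Finset G) : Set G) with hK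
    have hLK : L ≤ K := Subgroup.closure_mono (by simp)
    have haK : a ∈ K := Subgroup.subset_closure (by simp)
    have hnorm : (L.subgroupOf K).Normal := by
      constructor
      intro x hx y
      have : y * x * y⁻¹ = x := by
        apply Subtype.ext
        show (y : G) * x * (y : G)⁻¹ = x
        rw [hc (y : G) x, mul_inv_cancel_right]
      rw [this]
      exact hx
    have hex : ∀ x ∈ K, ∃ k : ℤ, ∃ y ∈ L, x = a ^ k * y := by
      intro x hx
      induction hx using Subgroup.closure_induction with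
      | mem x hx =>
        rcases mem_insert.1 (mem_coe.1 hx) with rfl | hx
        · exact ⟨1, 1, one_mem _, by simp⟩
        · exact ⟨0, x, Subgroup.subset_closure hx, by simp⟩
      | one => exact ⟨0, 1, one_mem _, by simp⟩
      | mul x y _ _ hx hy =>
        obtain ⟨k, u, hu, rfl⟩ := hx
        obtain ⟨l, v, hv, rfl⟩ := hy
        refine ⟨k + l, u * v, mul_mem hu hv, ?_⟩
        rw [zpow_add, mul_assoc, mul_assoc, ← mul_assoc u, hc u, mul_assoc]
      | inv x _ hx =>
        obtain ⟨k, u, hu, rfl⟩ := hx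
        refine ⟨-k, u⁻¹, inv_mem hu, ?_⟩
        rw [mul_inv_rev, zpow_neg, hc]
    refine amenable_ext (L.subgroupOf K) ?_ ?_
    · exact amenable_of_equiv (Subgroup.subgroupOfEquivOfLe hLK).symm ih
    · refine amenable_of_cyclic ((⟨a, haK⟩ : K) : K ⧸ L.subgroupOf K) ?_
      intro x
      induction x using QuotientGroup.induction_on with
      | H z =>
        obtain ⟨k, y, hy, hz⟩ := hex z z.2
        refine Subgroup.mem_zpowers_iff.2 ⟨k, ?_⟩
        rw [← QuotientGroup.mk_zpow, QuotientGroup.eq, Subgroup.mem_subgroupOf]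
        have : (((⟨a, haK⟩ : K) ^ k)⁻¹ * z : K) = (y : G) := by
          simp only [Subgroup.coe_mul, Subgroup.coe_inv, Subgroup.coe_zpow, hz]
          rw [inv_mul_cancel_left]
        rw [this]
        exact hy

/-- the quotients of a group by the terms of its derived series are amenable -/
theorem amenable_derived {G : Type*} [Group G] (n : ℕ) : Amenable (G ⧸ derivedSeries G n) := by
  induction n with
  | zero =>
    have : Subsingleton (G ⧸ derivedSeries G 0) := by
      rw [derivedSeries_zero]
      exact QuotientGroup.subsingleton_quotient_top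
    exact amenable_of_finite
  | succ n ih =>
    have hle : derivedSeries G (n + 1) ≤ derivedSeries G n := derivedSeries_antitone G (Nat.le_succ n)
    refine amenable_ext ((derivedSeries G n).map (QuotientGroup.mk' (derivedSeries G (n + 1)))) ?_ ?_
    · apply amenable_of_comm
      rintro ⟨_, x, hx, rfl⟩ ⟨_, y, hy, rfl⟩
      apply Subtype.ext
      show ((x : G ⧸ derivedSeries G (n + 1))) * y = y * x
      rw [← QuotientGroup.mk_mul, ← QuotientGroup.mk_mul, eq_comm, QuotientGroup.eq]
      have h1 : ⁅x⁻¹, y⁻¹⁆ ∈ derivedSeries G (n + 1) := by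
        rw [derivedSeries_succ]
        exact Subgroup.commutator_mem_commutator (inv_mem hx) (inv_mem hy)
      have h2 : (y * x)⁻¹ * (x * y) = ⁅x⁻¹, y⁻¹⁆ := by
        rw [commutatorElement_def]
        group
      rw [h2]
      exact h1
    · exact amenable_of_equiv (QuotientGroup.quotientQuotientEquivQuotient _ _ hle).symm ih

end Pool.Agent.E8helper31.SX
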