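import Pool.Agent.H21R2.Labelled

/-!
Densities of sets of points and approximate actions of groups on finite sets.
-/

set_option autoImplicit false

namespace Pool.Agent.E8helper31.SX

open Finset Pool.Agent.H21R2

section dens

open Classical in
/-- the proportion of the points with the property `P` -/
noncomputable def dens {X : Type*} [Fintype X] (P : X → Prop) : ℝ :=
  ((univ.filter P).card : ℝ) / Fintype.card X

variable {X Y : Type*} [Fintype X] [Fintype Y]

theorem dens_nonneg (P : X → Prop) : 0 ≤ dens P := by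
  unfold dens; positivity

theorem dens_mono {P Q : X → Prop} (h : ∀ x, P x → Q x) : dens P ≤ dens Q := by
  classical
  unfold dens
  apply div_le_div_of_nonneg_right _ (by positivity)
  exact_mod_cast card_le_card (monotone_filter_right _ fun x _ hx => h x hx)

theorem dens_congr {P Q : X → Prop} (h : ∀ x, P x ↔ Q x) : dens P = dens Q :=
  le_antisymm (dens_mono fun x => (h x).1) (dens_mono fun x => (h x).2)

theorem dens_or (P Q : X → Prop) : dens (fun x => P x ∨ Q x) ≤ dens P + dens Q := by
  classical
  unfold dens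
  rw [← add_div]
  apply div_le_div_of_nonneg_right _ (by positivity)
  rw [← Nat.cast_add, Nat.cast_le]
  refine le_trans (card_le_card ?_) (card_union_le (univ.filter P) (univ.filter Q))
  intro x hx
  simpa using hx

theorem dens_false : dens (fun _ : X => False) = 0 := by
  simp [dens]

theorem dens_exists {ι : Type*} (s : Finset ι) (P : ι → X → Prop) :
    dens (fun x => ∃ i ∈ s, P i x) ≤ ∑ i ∈ s, dens (P i) := by
  classical
  induction s using Finset.induction_on with
  | empty => simp [dens_false]
  | insert a s ha ih =>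
    rw [sum_insert ha]
    refine le_trans (dens_mono (Q := fun x => P a x ∨ ∃ i ∈ s, P i x) ?_) ?_
    · rintro x ⟨i, hi, hx⟩
      rcases mem_insert.1 hi with rfl | hi
      · exact Or.inl hx
      · exact Or.inr ⟨i, hi, hx⟩
    · exact (dens_or _ _).trans (by linarith)

theorem dens_equiv (e : X ≃ Y) (P : Y → Prop) : dens (fun x => P (e x)) = dens P := by
  classical
  unfold dens
  rw [Fintype.card_congr e]
  congr 2
  refine card_bij (fun x _ => e x) ?_ ?_ ?_
  · intro x hx; simpa using hx
  · intro x _ y _ h; exact e.injective h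
  · intro y hy
    exact ⟨e.symm y, by simpa using hy, by simp⟩

theorem dens_fst [Nonempty Y] (P : X → Prop) : dens (fun p : X × Y => P p.1) = dens P := by
  classical
  unfold dens
  have h : (univ.filter fun p : X × Y => P p.1) = (univ.filter P) ×ˢ (univ : Finset Y) := by
    ext p; simp
  rw [h, card_product, Fintype.card_prod, card_univ]
  have : (Fintype.card Y : ℝ) ≠ 0 := by
    have := Fintype.card_pos (α := Y); positivity
  push_cast
  rw [mul_div_mul_right _ _ this]

theorem dens_add_not [Nonempty X] (P : X → Prop) : dens P + dens (fun x => ¬ P x) = 1 := by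
  classical
  unfold dens
  rw [← add_div, div_eq_one_iff_eq (by have := Fintype.card_pos (α := X); positivity)]
  rw [← card_univ (α := X), ← card_filter_add_card_filter_not (s := (univ : Finset X)) P]
  push_cast
  congr!

theorem dens_le_one (P : X → Prop) : dens P ≤ 1 := by
  classical
  unfold dens
  apply div_le_one_of_le₀ _ (by positivity)
  exact_mod_cast card_le_univ _

/-- passing to a subset -/
theorem dens_embed {Z : Type*} [Fintype Z] [Nonempty X] (v : Z → X) (hv : Function.Injective v)
    (P : X → Prop) (δ : ℝ) (hδ : dens (fun x => ¬ ∃ z, v z = x) ≤ δ) (hδ1 : δ ≤ 1 / 2) :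
    dens (fun z => P (v z)) ≤ 2 * dens P := by
  classical
  have h1 := dens_add_not (fun x => ∃ z, v z = x)
  have hR : 1 / 2 ≤ dens (fun x => ∃ z, v z = x) := by linarith
  unfold dens at hR ⊢
  have hX : (0 : ℝ) < Fintype.card X := by
    have := Fintype.card_pos (α := X); positivity
  rw [le_div_iff₀ hX] at hR
  have hR' : 1 / 2 * (Fintype.card X : ℝ) ≤ Fintype.card Z := by
    refine hR.trans ?_
    rw [Nat.cast_le, ← card_univ (α := Z)]
    refine le_trans (card_le_card (t := univ.image v) ?_) card_image_le
    intro x hx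
    simpa using hx
  have hpos : (0 : ℝ) < Fintype.card Z := lt_of_lt_of_le (by positivity) hR'
  rw [div_le_iff₀ hpos]
  have h2 : ((univ.filter fun z => P (v z)).card : ℝ) ≤ ((univ.filter P).card : ℝ) := by
    norm_cast
    refine card_le_card_of_injOn v ?_ (hv.injOn)
    intro x hx
    simpa using hx
  calc ((univ.filter fun z => P (v z)).card : ℝ) ≤ ((univ.filter P).card : ℝ) := h2
    _ = 2 * (((univ.filter P).card : ℝ) / Fintype.card X) * (1 / 2 * Fintype.card X) := by
        field_simp
    _ ≤ _ := mul_le_mul_of_nonneg_left hR' (by positivity)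

end dens

variable {G : Type*} [Group G]

/-- `φ` is an approximate free action, up to `ε`, of the finite subset `F` of `G` on the finite set
`X`. -/
structure App {X : Type*} [Fintype X] (F : Finset G) (ε : ℝ) (φ : G → Equiv.Perm X) : Prop where
  mul : ∀ a ∈ F, ∀ b ∈ F, dens (fun x => φ (a * b) x ≠ φ a (φ b x)) ≤ ε
  free : ∀ a ∈ F, a ≠ 1 → dens (fun x => φ a x = x) ≤ ε

theorem hamm_eq {n : ℕ} (σ τ : Equiv.Perm (Fin n)) : hamm σ τ = dens (fun x => σ x ≠ τ x) := by
  classical
  unfold hamm dens
  rw [Fintype.card_fin]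
  congr!

theorem exists_app (hG : IsSofic G) (F : Finset G) (ε : ℝ) (hε : 0 < ε) :
    ∃ n : ℕ, 1 ≤ n ∧ ∃ φ : G → Equiv.Perm (Fin n), φ 1 = 1 ∧ App F ε φ := by
  classical
  obtain ⟨n, hn, φ, h1, h2, h3⟩ := hG (insert 1 (F ∪ image₂ (· * ·) F F)) (mem_insert_self _ _) ε hε
  have : Nonempty (Fin n) := ⟨⟨0, hn⟩⟩
  refine ⟨n, hn, φ, h1, ⟨?_, ?_⟩⟩
  · intro a ha b hb
    have := h2 a (by simp [ha]) b (by simp [hb])
      (mem_insert_of_mem (mem_union_right _ (mem_image₂.2 ⟨a, ha, b, hb, rfl⟩)))
    rw [hamm_eq] at this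
    exact this.le
  · intro a ha ha1
    have := h3 a (by simp [ha]) ha1
    rw [hamm_eq] at this
    have h4 := dens_add_not (fun x => φ a x = x)
    have h5 : dens (fun x => φ a x ≠ (1 : Equiv.Perm (Fin n)) x) =
      dens (fun x => ¬ φ a x = x) := rfl
    linarith

theorem isSofic_of_app.{u, v} {G : Type v} [Group G]
    (h : ∀ (F : Finset G) (ε : ℝ), 0 < ε → ∃ (X : Type u) (_ : Fintype X) (_ : Nonempty X)
      (φ : G → Equiv.Perm X), φ 1 = 1 ∧ App F ε φ) : IsSofic G := by
  classical
  intro A _ ε hε
  obtain ⟨X, _, _, φ, h1, h2, h3⟩ := h A (ε / 2) (by positivity)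
  have e := Fintype.equivFin X
  have : Nonempty (Fin (Fintype.card X)) := e.symm.nonempty
  refine ⟨Fintype.card X, Fintype.card_pos, fun a => e.symm.trans ((φ a).trans e), ?_, ?_, ?_⟩
  · ext i; simp [h1]
  · intro a ha b hb _
    rw [hamm_eq]
    have h4 := h2 a ha b hb
    have h5 : dens (fun x : Fin (Fintype.card X) =>
        (fun a => e.symm.trans ((φ a).trans e)) (a * b) x ≠
          ((fun a => e.symm.trans ((φ a).trans e)) a * (fun a => e.symm.trans ((φ a).trans e)) b :
            Equiv.Perm (Fin (Fintype.card X))) x) =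
        dens (fun x => φ (a * b) x ≠ φ a (φ b x)) := by
      rw [← dens_equiv e.symm]
      apply dens_congr
      intro x
      simp
    rw [h5]
    linarith
  · intro a ha ha1
    rw [hamm_eq]
    have h4 := h3 a ha ha1
    have h5 : dens (fun x : Fin (Fintype.card X) =>
        (fun a => e.symm.trans ((φ a).trans e)) a x ≠ (1 : Equiv.Perm (Fin (Fintype.card X))) x) =
        dens (fun x => ¬ φ a x = x) := by
      rw [← dens_equiv e.symm]
      apply dens_congr
      intro x
      simp [← Equiv.eq_symm_apply]
    have h6 := dens_add_not (fun x => φ a x = x)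
    rw [h5]
    linarith

/-- Soficity can be checked for one element at a time, in quotients. -/
theorem isSofic_of_residually.{u, v} {G : Type v} [Group G]
    (h : ∀ g : G, g ≠ 1 → ∃ (Q : Type u) (_ : Group Q) (q : G →* Q), IsSofic Q ∧ q g ≠ 1) :
    IsSofic G := by
  classical
  apply isSofic_of_weighted.{0}
  intro A h1A g hg hg1 ε hε
  obtain ⟨Q, _, q, hQ, hq⟩ := h g hg1
  obtain ⟨n, hn, φ, h1, h2⟩ := exists_app hQ (A.image q) (min (ε / 2) (1 / 2))
    (lt_min (by positivity) (by norm_num))
  have hn0 : (0 : ℝ) < n := by exact_mod_cast hn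
  have : Nonempty (Fin n) := ⟨⟨0, hn⟩⟩
  let f : Fin n →₀ ℝ := Finsupp.equivFunOnFinite.symm (fun _ => 1)
  have hf : ∀ y, f y = 1 := fun y => rfl
  have hmass : ∀ (P : Fin n → Prop), mass f P = dens P * n := by
    intro P
    rw [mass_eq_sum f P univ (by simp)]
    unfold dens
    simp [hf]
    field_simp
  have hsig : 1 / 2 * n ≤ mass f (fun y => φ (q g) y ≠ y) := by
    rw [hmass]
    have h3 := h2.free (q g) (mem_image_of_mem q hg) hq
    have h4 := dens_add_not (fun x => φ (q g) x = x)
    have h5 := min_le_right (ε / 2) (1 / 2 : ℝ)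
    apply mul_le_mul_of_nonneg_right _ hn0.le
    linarith
  refine ⟨Fin n, fun a => φ (q a), f, by simpa using h1, lt_of_lt_of_le (by positivity) hsig, ?_, ?_⟩
  · intro a _
    have : energy f (φ (q a)) = 0 := by
      simp [energy, hf]
    rw [this]
    have : 0 ≤ mass f (fun y => φ (q g) y ≠ y) := le_trans (by positivity) hsig
    positivity
  · intro a ha b hb _
    rw [hmass]
    have h3 := h2.mul (q a) (mem_image_of_mem q ha) (q b) (mem_image_of_mem q hb)
    have h5 := min_le_left (ε / 2) (1 / 2 : ℝ)
    simp only [map_mul]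
    calc dens (fun y => φ (q a * q b) y ≠ φ (q a) (φ (q b) y)) * n ≤ ε / 2 * n := by
          apply mul_le_mul_of_nonneg_right _ hn0.le
          linarith
      _ = ε * (1 / 2 * n) := by ring
      _ ≤ _ := mul_le_mul_of_nonneg_left hsig hε.le

end Pool.Agent.E8helper31.SX
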