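import Pool.Agent.E8helper31.SX.Local

/-!
Free approximate actions of finitely many groups on one finite set, which agree on a common
amenable subgroup.
-/

set_option autoImplicit false
set_option linter.unusedSectionVars false

namespace Pool.Agent.E8helper31.SX

open Finset Pool.Agent.H21R2

universe u v

theorem dens_coord {J : Type*} [Fintype J] [DecidableEq J] {X : J → Type*} [∀ j, Fintype (X j)]
    [∀ j, Nonempty (X j)] (j : J) (P : X j → Prop) :
    dens (fun x : ∀ j, X j => P (x j)) = dens P := by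
  classical
  rw [← dens_fst (Y := ∀ k : {k // k ≠ j}, X k) P, ← dens_equiv (Equiv.piSplitAt j X)]
  rfl

section comb

variable {J : Type u} [Fintype J] [DecidableEq J] {X : J → Type} [∀ j, Fintype (X j)]
  [∀ j, Nonempty (X j)] {G : J → Type v} [∀ j, Group (G j)] {H : Type v} [Group H]
  (φ : ∀ j, H →* G j) (τ : ∀ j, G j → Equiv.Perm (X j)) (s : ∀ j, X j → H)

/-- the diagonal approximate action of the common subgroup -/
def EE (h : H) : Equiv.Perm (∀ j, X j) := Equiv.piCongrRight fun j => τ j (φ j h)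

theorem EE_apply (h : H) (x : ∀ j, X j) (j : J) : EE φ τ h x j = τ j (φ j h) (x j) := rfl

/-- moves the diagonal action of the common subgroup to one coordinate -/
def TT (i : J) : Equiv.Perm (∀ j, X j) where
  toFun x j := if j = i then x j else τ j (φ j (s i (x i))) (x j)
  invFun x j := if j = i then x j else (τ j (φ j (s i (x i)))).symm (x j)
  left_inv x := by
    funext j
    by_cases h : j = i <;> simp [h]
  right_inv x := by
    funext j
    by_cases h : j = i <;> simp [h]

theorem TT_self (i : J) (x : ∀ j, X j) : TT φ τ s i x i = x i := by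
  simp [TT]

theorem TT_ne (i j : J) (h : j ≠ i) (x : ∀ j, X j) :
    TT φ τ s i x j = τ j (φ j (s i (x i))) (x j) := by
  simp [TT, h]

/-- the action on one coordinate -/
def AA (i : J) (g : G i) : Equiv.Perm (∀ j, X j) where
  toFun x := Function.update x i (τ i g (x i))
  invFun x := Function.update x i ((τ i g).symm (x i))
  left_inv x := by simp
  right_inv x := by simp

theorem AA_apply (i : J) (g : G i) (x : ∀ j, X j) :
    AA τ i g x = Function.update x i (τ i g (x i)) := rfl

/-- the twisted action -/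
def PP (i : J) (g : G i) : Equiv.Perm (∀ j, X j) :=
  (TT φ τ s i).symm.trans ((AA τ i g).trans (TT φ τ s i))

theorem PP_TT (i : J) (g : G i) (y : ∀ j, X j) :
    PP φ τ s i g (TT φ τ s i y) = TT φ τ s i (AA τ i g y) := by
  simp [PP]

theorem PP_self (i : J) (g : G i) (x : ∀ j, X j) : PP φ τ s i g x i = τ i g (x i) := by
  obtain ⟨y, rfl⟩ := (TT φ τ s i).surjective x
  rw [PP_TT, TT_self, TT_self, AA_apply, Function.update_self]

/-- the label of a point: the point in its orbit under the common subgroup -/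
def lab (j₀ : J) (x : ∀ j, X j) : ∀ j, X j := fun j => (τ j (φ j (s j₀ (x j₀)))).symm (x j)

variable (P : Finset H) (hs : ∀ j z, s j z ∈ P) (S : Finset H) (F : ∀ j, Finset (G j)) (ε δ : ℝ)
  (hF1 : ∀ j, ∀ p ∈ P, φ j p ∈ F j) (hF2 : ∀ j, ∀ h ∈ S, φ j h ∈ F j)
  (hmul : ∀ j, ∀ a ∈ F j, ∀ b ∈ F j, dens (fun x => τ j (a * b) x ≠ τ j a (τ j b x)) ≤ δ)
  (hsep : ∀ j, ∀ a ∈ F j, ∀ b ∈ F j, a ≠ b → dens (fun x => τ j a x = τ j b x) ≤ δ)
  (hrok : ∀ j, ∀ h ∈ S, dens (fun z => s j (τ j (φ j h) z) ≠ h * s j z) ≤ ε)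

include hmul in
theorem PP_mul (i : J) (a b : G i) (ha : a ∈ F i) (hb : b ∈ F i) :
    dens (fun x => PP φ τ s i (a * b) x ≠ PP φ τ s i a (PP φ τ s i b x)) ≤ δ := by
  refine le_trans ?_ (hmul i a ha b hb)
  rw [← dens_coord i (fun x => τ i (a * b) x ≠ τ i a (τ i b x)), ← dens_equiv (TT φ τ s i)]
  apply dens_mono
  intro y hy hcon
  apply hy
  rw [PP_TT, PP_TT, PP_TT, AA_apply, AA_apply, AA_apply, hcon, Function.update_self,
    Function.update_idem]

include hF1 hF2 hmul in
theorem dens_bad (h : H) (hh : h ∈ S) :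
    dens (fun x : ∀ j, X j => ∃ j ∈ (univ : Finset J), ∃ p ∈ P,
      τ j (φ j (h * p)) (x j) ≠ τ j (φ j h) (τ j (φ j p) (x j))) ≤
      Fintype.card J * (P.card * δ) := by
  refine (dens_exists univ _).trans ?_
  have : ∀ j ∈ (univ : Finset J), dens (fun x : ∀ j, X j => ∃ p ∈ P,
      τ j (φ j (h * p)) (x j) ≠ τ j (φ j h) (τ j (φ j p) (x j))) ≤ P.card * δ := by
    intro j _
    refine (dens_exists P _).trans ?_
    have : ∀ p ∈ P, dens (fun x : ∀ j, X j =>
        τ j (φ j (h * p)) (x j) ≠ τ j (φ j h) (τ j (φ j p) (x j))) ≤ δ := by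
      intro p hp
      rw [dens_coord j (fun x => τ j (φ j (h * p)) x ≠ τ j (φ j h) (τ j (φ j p) x)), map_mul]
      exact hmul j _ (hF2 j h hh) _ (hF1 j p hp)
    refine (sum_le_sum this).trans ?_
    rw [sum_const, nsmul_eq_mul]
  refine (sum_le_sum this).trans ?_
  rw [sum_const, nsmul_eq_mul, card_univ]

include hs hF1 hF2 hmul hrok in
theorem PP_base (i : J) (h : H) (hh : h ∈ S) :
    dens (fun x => PP φ τ s i (φ i h) x ≠ EE φ τ h x) ≤ ε + Fintype.card J * (P.card * δ) := by
  have e1 := dens_bad φ τ P S F δ hF1 hF2 hmul h hh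
  have e2 := hrok i h hh
  rw [← dens_coord i (fun z => s i (τ i (φ i h) z) ≠ h * s i z)] at e2
  rw [← dens_equiv (TT φ τ s i)]
  refine le_trans (dens_mono ?_) ((dens_or _ _).trans (add_le_add e2 e1))
  intro y hy
  by_contra hcon
  push Not at hcon
  obtain ⟨h1, h2⟩ := hcon
  apply hy
  rw [PP_TT]
  funext j
  by_cases hj : j = i
  · subst hj
    rw [TT_self, EE_apply, TT_self, AA_apply, Function.update_self]
  · rw [TT_ne _ _ _ _ _ hj, EE_apply, TT_ne _ _ _ _ _ hj, AA_apply, Function.update_self,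
      Function.update_of_ne hj, h1]
    exact h2 j (mem_univ j) _ (hs i (y i))

include hs hF1 hF2 hmul hrok in
theorem lab_EE (j₀ : J) (h : H) (hh : h ∈ S) :
    dens (fun x => lab φ τ s j₀ (EE φ τ h x) ≠ lab φ τ s j₀ x) ≤
      ε + Fintype.card J * (P.card * δ) := by
  have e2 := hrok j₀ h hh
  rw [← dens_coord j₀ (fun z => s j₀ (τ j₀ (φ j₀ h) z) ≠ h * s j₀ z)] at e2
  have e1 : dens (fun x : ∀ j, X j => ∃ j ∈ (univ : Finset J), ∃ p ∈ P,
      τ j (φ j (h * p)) ((τ j (φ j p)).symm (x j)) ≠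
        τ j (φ j h) (τ j (φ j p) ((τ j (φ j p)).symm (x j)))) ≤
      Fintype.card J * (P.card * δ) := by
    refine (dens_exists univ _).trans ?_
    have : ∀ j ∈ (univ : Finset J), dens (fun x : ∀ j, X j => ∃ p ∈ P,
        τ j (φ j (h * p)) ((τ j (φ j p)).symm (x j)) ≠
        τ j (φ j h) (τ j (φ j p) ((τ j (φ j p)).symm (x j)))) ≤ P.card * δ := by
      intro j _
      refine (dens_exists P _).trans ?_
      have : ∀ p ∈ P, dens (fun x : ∀ j, X j =>
          τ j (φ j (h * p)) ((τ j (φ j p)).symm (x j)) ≠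
          τ j (φ j h) (τ j (φ j p) ((τ j (φ j p)).symm (x j)))) ≤ δ := by
        intro p hp
        rw [dens_coord j (fun x => τ j (φ j (h * p)) ((τ j (φ j p)).symm x) ≠
          τ j (φ j h) (τ j (φ j p) ((τ j (φ j p)).symm x)))]
        rw [dens_equiv (τ j (φ j p)).symm (fun x => τ j (φ j (h * p)) x ≠
          τ j (φ j h) (τ j (φ j p) x)), map_mul]
        exact hmul j _ (hF2 j h hh) _ (hF1 j p hp)
      refine (sum_le_sum this).trans ?_
      rw [sum_const, nsmul_eq_mul]
    refine (sum_le_sum this).trans ?_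
    rw [sum_const, nsmul_eq_mul, card_univ]
  refine le_trans (dens_mono ?_) ((dens_or _ _).trans (add_le_add e2 e1))
  intro x hx
  by_contra hcon
  push Not at hcon
  obtain ⟨h1, h2⟩ := hcon
  apply hx
  funext j
  simp only [lab, EE_apply]
  rw [h1, Equiv.symm_apply_eq, h2 j (mem_univ j) _ (hs j₀ (x j₀)), Equiv.apply_symm_apply]

include hs hF1 hmul hsep in
theorem lab_PP (j₀ i : J) (g : G i) (hg : g ∈ F i) (hg2 : g ∉ (φ i).range)
    (hg3 : ∀ q ∈ P, g * φ i q ∈ F i) :
    dens (fun x => lab φ τ s j₀ (PP φ τ s i g x) = lab φ τ s j₀ x) ≤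
      P.card * (P.card * (2 * δ)) := by
  refine le_trans (dens_mono (Q := fun x => ∃ p ∈ P, ∃ q ∈ P,
    (τ i (φ i p)).symm (τ i g (x i)) = (τ i (φ i q)).symm (x i)) ?_) ?_
  · intro x hx
    refine ⟨_, hs j₀ ((PP φ τ s i g x) j₀), _, hs j₀ (x j₀), ?_⟩
    have h1 := congrFun hx i
    simp only [lab] at h1
    rw [PP_self] at h1
    exact h1
  · refine (dens_exists P _).trans ?_
    have : ∀ p ∈ P, dens (fun x : ∀ j, X j => ∃ q ∈ P,
        (τ i (φ i p)).symm (τ i g (x i)) = (τ i (φ i q)).symm (x i)) ≤ P.card * (2 * δ) := by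
      intro p hp
      refine (dens_exists P _).trans ?_
      have : ∀ q ∈ P, dens (fun x : ∀ j, X j =>
          (τ i (φ i p)).symm (τ i g (x i)) = (τ i (φ i q)).symm (x i)) ≤ 2 * δ := by
        intro q hq
        rw [dens_coord i (fun x => (τ i (φ i p)).symm (τ i g x) = (τ i (φ i q)).symm x)]
        rw [← dens_equiv (τ i (φ i q))]
        have e1 := hmul i g hg (φ i q) (hF1 i q hq)
        have hne : g * φ i q ≠ φ i p := by
          intro h
          apply hg2
          exact ⟨p * q⁻¹, by rw [map_mul, map_inv, ← h, mul_inv_cancel_right]⟩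
        have e2 := hsep i _ (hg3 q hq) _ (hF1 i p hp) hne
        refine le_trans (dens_mono ?_) ((dens_or _ _).trans (by
          rw [two_mul]; exact add_le_add e1 e2))
        intro y hy
        by_contra hcon
        push Not at hcon
        obtain ⟨h1, h2⟩ := hcon
        apply h2
        rw [h1]
        rw [Equiv.symm_apply_apply, Equiv.symm_apply_eq] at hy
        exact hy
      refine (sum_le_sum this).trans ?_
      rw [sum_const, nsmul_eq_mul]
    refine (sum_le_sum this).trans ?_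
    rw [sum_const, nsmul_eq_mul]

include hsep in
theorem PP_free (i : J) (h1 : τ i 1 = 1) (g : G i) (h2 : 1 ∈ F i) (hg : g ∈ F i) (hg2 : g ≠ 1) :
    dens (fun x => PP φ τ s i g x = x) ≤ δ := by
  refine le_trans ?_ (hsep i g hg 1 h2 hg2)
  rw [← dens_coord i (fun x => τ i g x = τ i 1 x)]
  apply dens_mono
  intro x hx
  rw [h1, ← PP_self φ τ s, hx]
  rfl

end comb

end Pool.Agent.E8helper31.SX
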