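import Pool.Agent.E8helper31.SX.Tower

/-!
Amalgamated free products over arbitrary subgroups, which have a homomorphism that is injective on
the factors.
-/

set_option autoImplicit false

namespace Pool.Agent.E8helper31.SX

open Finset Pool.Agent.H21R2 Monoid

universe u v

theorem resVirtSolv_of_finite {N : Type u} [Group N]
    (h : ∀ g : N, g ≠ 1 → ∃ (Q : Type u) (_ : Group Q) (_ : Finite Q) (f : N →* Q), f g ≠ 1) :
    ResVirtSolv N := by
  intro g hg
  obtain ⟨Q, _, _, f, hf⟩ := h g hg
  exact ⟨Q, inferInstance, f, ⊥, inferInstance, inferInstance, inferInstance, hf⟩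

theorem resVirtSolv_of_free {N : Type u} [Group N] {α : Type u} (j : N →* FreeGroup α)
    (hj : Function.Injective j) : ResVirtSolv N := by
  classical
  apply resVirtSolv_of_finite
  intro g hg
  obtain ⟨B, ρ, hρ⟩ := free_sep {(j g).toWord}
  refine ⟨Equiv.Perm B, inferInstance, inferInstance, ρ.comp j, ?_⟩
  have h1 := hρ (j g).toWord (mem_singleton_self _)
  rw [FreeGroup.mk_toWord] at h1
  exact h1 fun h => hg (hj (h.trans (map_one j).symm))

section emb

variable {ι : Type u} {G : ι → Type u} [∀ i, Group (G i)] {H : Type u} [Group H]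
  (φ : ∀ i, H →* G i) {Γ : Type u} [Group Γ] (f : PushoutI φ →* Γ)

/-- the generators of the free group -/
abbrev YY := ι × (Γ ⧸ (f.comp (PushoutI.base φ)).range)

/-- the action on the free group -/
def actF : Γ →* MulAut (FreeGroup (YY φ f)) where
  toFun γ := FreeGroup.freeGroupCongr (Equiv.prodCongr (Equiv.refl ι) (MulAction.toPerm γ))
  map_one' := by
    apply MulEquiv.toMonoidHom_injective
    ext ⟨i, c⟩
    simp
  map_mul' a b := by
    apply MulEquiv.toMonoidHom_injective
    ext ⟨i, c⟩
    simp [mul_smul]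

theorem actF_of (γ : Γ) (i : ι) (c : Γ ⧸ (f.comp (PushoutI.base φ)).range) :
    actF φ f γ (FreeGroup.of (i, c)) = FreeGroup.of (i, γ • c) := by
  simp [actF]

/-- the factors, in general position -/
def psi (i : ι) : G i →* FreeGroup (YY φ f) ⋊[actF φ f] Γ :=
  (MulAut.conj (SemidirectProduct.inl (FreeGroup.of (i, ((1 : Γ) : Γ ⧸ _))) :
    FreeGroup (YY φ f) ⋊[actF φ f] Γ)).toMonoidHom.comp
    (SemidirectProduct.inr.comp (f.comp (PushoutI.of i)))

theorem inr_inl (γ : Γ) (x : FreeGroup (YY φ f)) :
    (SemidirectProduct.inr γ * SemidirectProduct.inl x : FreeGroup (YY φ f) ⋊[actF φ f] Γ) =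
      SemidirectProduct.inl (actF φ f γ x) * SemidirectProduct.inr γ := by
  rw [SemidirectProduct.inl_aut, map_inv, inv_mul_cancel_right]

theorem psi_apply (i : ι) (g : G i) : psi φ f i g =
    SemidirectProduct.inl (FreeGroup.of (i, ((1 : Γ) : Γ ⧸ _))) *
    SemidirectProduct.inr (f (PushoutI.of i g)) *
    (SemidirectProduct.inl (FreeGroup.of (i, ((1 : Γ) : Γ ⧸ _))))⁻¹ := rfl

theorem psi_apply2 (c : Γ) (i : ι) (g : G i) :
    SemidirectProduct.inr c * psi φ f i g =
    SemidirectProduct.inl (FreeGroup.of (i, (c : Γ ⧸ _)) *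
      (FreeGroup.of (i, ((c * f (PushoutI.of i g) : Γ) : Γ ⧸ _)))⁻¹) *
    SemidirectProduct.inr (c * f (PushoutI.of i g)) := by
  rw [psi_apply, ← mul_assoc, ← mul_assoc, inr_inl, actF_of]
  rw [mul_assoc (SemidirectProduct.inl _) (SemidirectProduct.inr c), ← map_mul,
    ← map_inv, mul_assoc, inr_inl, map_inv, actF_of, ← mul_assoc, ← map_mul]
  congr 4
  all_goals
    simp only [MulAction.Quotient.smul_mk, smul_eq_mul, mul_one]

theorem psi_base (i : ι) (h : H) :
    psi φ f i (φ i h) = SemidirectProduct.inr (f (PushoutI.base φ h)) := by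
  have h1 := psi_apply2 φ f 1 i (φ i h)
  rw [map_one, one_mul, one_mul, PushoutI.of_apply_eq_base] at h1
  rw [h1]
  have h2 : ((f (PushoutI.base φ h) : Γ) : Γ ⧸ (f.comp (PushoutI.base φ)).range) =
      ((1 : Γ) : Γ ⧸ (f.comp (PushoutI.base φ)).range) := by
    rw [eq_comm, QuotientGroup.eq, inv_one, one_mul]
    exact ⟨h, rfl⟩
  rw [h2, mul_inv_cancel, map_one, one_mul]

/-- the map from the amalgamated free product to the semidirect product -/
def Psi : PushoutI φ →* FreeGroup (YY φ f) ⋊[actF φ f] Γ :=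
  PushoutI.lift (psi φ f) (SemidirectProduct.inr.comp (f.comp (PushoutI.base φ))) (by
    intro i
    ext1 h
    exact psi_base φ f i h)

/-- the word in the free group -/
def WW : Γ → List (Σ i, G i) → List (YY φ f × Bool)
  | _, [] => []
  | c, l :: w => ((l.1, (c : Γ ⧸ _)), true) ::
      ((l.1, ((c * f (PushoutI.of l.1 l.2) : Γ) : Γ ⧸ _)), false) ::
      WW (c * f (PushoutI.of l.1 l.2)) w

theorem Psi_word (c : Γ) (w : List (Σ i, G i)) :
    SemidirectProduct.inr c * (w.map fun l => psi φ f l.1 l.2).prod =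
    SemidirectProduct.inl (FreeGroup.mk (WW φ f c w)) *
      SemidirectProduct.inr (c * f (w.map fun l => PushoutI.of (φ := φ) l.1 l.2).prod) := by
  induction w generalizing c with
  | nil =>
    simp only [List.map_nil, List.prod_nil, mul_one, map_one, WW]
    rw [← FreeGroup.one_eq_mk, map_one, one_mul]
  | cons l w ih =>
    rw [List.map_cons, List.prod_cons, List.map_cons, List.prod_cons, ← mul_assoc, psi_apply2,
      mul_assoc, ih, ← mul_assoc, ← map_mul]
    have e1 : FreeGroup.mk (WW φ f c (l :: w)) = FreeGroup.of (l.1, (c : Γ ⧸ _)) *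
        (FreeGroup.of (l.1, ((c * f (PushoutI.of l.1 l.2) : Γ) : Γ ⧸ _)))⁻¹ *
        FreeGroup.mk (WW φ f (c * f (PushoutI.of l.1 l.2)) w) := by
      rw [FreeGroup.of, FreeGroup.of, FreeGroup.inv_mk, FreeGroup.mul_mk, FreeGroup.mul_mk]
      rfl
    rw [e1, map_mul f, mul_assoc c]

theorem WW_reduced (hf : ∀ i, Function.Injective (f.comp (PushoutI.of i)))
    (w : List (Σ i, G i)) (h1 : ∀ l ∈ w, l.2 ∉ (φ l.1).range)
    (hw : w.IsChain fun a b => a.1 ≠ b.1) (c : Γ) : FreeGroup.IsReduced (WW φ f c w) := by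
  induction w generalizing c with
  | nil => exact FreeGroup.IsReduced.nil
  | cons l w ih =>
    have ih' := ih (fun l' hl' => h1 l' (List.mem_cons_of_mem _ hl')) hw.tail
    simp only [WW]
    rw [FreeGroup.isReduced_cons_cons]
    refine ⟨fun h => ?_, ?_⟩
    · exfalso
      have h2 : (c : Γ ⧸ (f.comp (PushoutI.base φ)).range) =
          ((c * f (PushoutI.of l.1 l.2) : Γ) : Γ ⧸ (f.comp (PushoutI.base φ)).range) :=
        congrArg Prod.snd h
      rw [QuotientGroup.eq, inv_mul_cancel_left] at h2
      obtain ⟨k, hk⟩ := h2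
      apply h1 l List.mem_cons_self
      refine ⟨k, hf l.1 ?_⟩
      show f (PushoutI.of l.1 (φ l.1 k)) = f (PushoutI.of l.1 l.2)
      rw [PushoutI.of_apply_eq_base]
      exact hk
    · cases w with
      | nil => exact FreeGroup.IsReduced.singleton
      | cons l' w' =>
        have ih2 := ih' (c * f (PushoutI.of l.1 l.2))
        simp only [WW] at ih2 ⊢
        rw [FreeGroup.isReduced_cons_cons]
        refine ⟨fun h => ?_, ih2⟩
        rw [List.isChain_cons_cons] at hw
        exact absurd (congrArg Prod.fst h) hw.1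

theorem Psi_injective [Nonempty ι] (hφ : ∀ i, Function.Injective (φ i))
    (hf : ∀ i, Function.Injective (f.comp (PushoutI.of i))) : Function.Injective (Psi φ f) := by
  rw [injective_iff_map_eq_one]
  intro z hz
  obtain ⟨i₀⟩ := ‹Nonempty ι›
  rcases exists_rep φ hφ z with ⟨h, rfl⟩ | ⟨w, hw1, hw2, hw3, rfl⟩
  · have h1 : Psi φ f (PushoutI.base φ h) = SemidirectProduct.inr (f (PushoutI.base φ h)) :=
      PushoutI.lift_base _ _ _ _
    rw [h1] at hz
    have h2 : f (PushoutI.base φ h) = 1 :=
      SemidirectProduct.inr_injective (hz.trans (map_one _).symm)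
    have h3 : φ i₀ h = 1 := by
      apply hf i₀
      show f (PushoutI.of i₀ (φ i₀ h)) = f (PushoutI.of i₀ 1)
      rw [PushoutI.of_apply_eq_base, h2, map_one, map_one]
    have h4 : h = 1 := hφ i₀ (h3.trans (map_one _).symm)
    rw [h4, map_one]
  · exfalso
    have h1 : Psi φ f (w.map fun l => PushoutI.of (φ := φ) l.1 l.2).prod =
        (w.map fun l => psi φ f l.1 l.2).prod := by
      rw [map_list_prod, List.map_map]
      congr 1
    have h2 := Psi_word φ f 1 w
    rw [map_one, one_mul, ← h1, hz] at h2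
    have h3 := congrArg SemidirectProduct.left h2
    simp only [SemidirectProduct.one_left, SemidirectProduct.mul_left,
      SemidirectProduct.left_inl, SemidirectProduct.left_inr, map_one, mul_one] at h3
    refine mk_ne_one (WW_reduced φ f hf w hw2 hw3 1) ?_ h3.symm
    cases w with
    | nil => exact absurd rfl hw1
    | cons l w => simp [WW]

theorem sofic_of_factors [Nonempty ι] (hφ : ∀ i, Function.Injective (φ i))
    (hf : ∀ i, Function.Injective (f.comp (PushoutI.of i))) (hΓ : AE Γ) :
    IsSofic (PushoutI φ) := by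
  apply sofic_of_injective (Psi φ f) (Psi_injective φ f hφ hf)
  let r : FreeGroup (YY φ f) ⋊[actF φ f] Γ →* Γ := SemidirectProduct.rightHom
  have hr : Function.Surjective r := SemidirectProduct.rightHom_surjective
  have hmem : ∀ x : r.ker, (x : FreeGroup (YY φ f) ⋊[actF φ f] Γ).right = 1 := fun x => x.2
  refine sofic_of_resVirtSolv r.ker
    (AE_of_equiv (QuotientGroup.quotientKerEquivOfSurjective r hr).symm hΓ) ?_
  let j : r.ker →* FreeGroup (YY φ f) := MonoidHom.mk' (fun x => x.1.left) (by
    intro x y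
    show (x.1 * y.1).left = _
    rw [SemidirectProduct.mul_left, hmem x, map_one]
    rfl)
  refine resVirtSolv_of_free j ?_
  intro x y hxy
  apply Subtype.ext
  exact SemidirectProduct.ext hxy ((hmem x).trans (hmem y).symm)

end emb

end Pool.Agent.E8helper31.SX
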