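import Pool.Agent.E8helper31.SX.AmenCl
import Mathlib.GroupTheory.ResiduallyFinite

/-!
The intersection of the kernels of all homomorphisms from a group to a finite symmetric group: the
quotient is locally finite, without any assumption on the group.
-/

set_option autoImplicit false

namespace Pool.Agent.E8helper31.SX

open Finset

/-- the intersection of the kernels of all actions of the group on `n` points -/
def Vn (N : Type*) [Group N] (n : ℕ) : Subgroup N := ⨅ f : N →* Equiv.Perm (Fin n), f.ker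

section vn

variable {N : Type*} [Group N]

theorem mem_Vn {n : ℕ} {x : N} : x ∈ Vn N n ↔ ∀ f : N →* Equiv.Perm (Fin n), f x = 1 := by
  simp [Vn, Subgroup.mem_iInf, MonoidHom.mem_ker]

instance Vn_char (n : ℕ) : (Vn N n).Characteristic := by
  rw [Subgroup.characteristic_iff_comap_le]
  intro ϕ x hx
  rw [Subgroup.mem_comap] at hx
  rw [mem_Vn] at hx ⊢
  intro f
  have := hx (f.comp ϕ.symm.toMonoidHom)
  simpa using this

theorem locallyFinite_Vn (n : ℕ) : LocallyFinite (N ⧸ Vn N n) := by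
  classical
  intro S
  let St : Set N := (fun q : N ⧸ Vn N n => q.out) '' (S : Set (N ⧸ Vn N n))
  have hlift : ∀ q : Subgroup.closure (S : Set (N ⧸ Vn N n)), ∃ k ∈ Subgroup.closure St,
      ((k : N) : N ⧸ Vn N n) = q := by
    rintro ⟨q, hq⟩
    have h1 : Subgroup.closure (S : Set (N ⧸ Vn N n)) =
        (Subgroup.closure St).map (QuotientGroup.mk' (Vn N n)) := by
      rw [MonoidHom.map_closure]
      congr 1
      ext q
      simp only [St, Set.image_image]
      simp
    rw [h1] at hq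
    obtain ⟨k, hk, hkq⟩ := hq
    exact ⟨k, hk, hkq⟩
  choose l hl1 hl2 using hlift
  let Φ : Subgroup.closure (S : Set (N ⧸ Vn N n)) →
      ((S → Equiv.Perm (Fin n)) → Equiv.Perm (Fin n)) := fun q r =>
    if h : ∃ f : N →* Equiv.Perm (Fin n), ∀ s : S, f s.1.out = r s then h.choose (l q) else 1
  apply Finite.of_injective Φ
  intro q q' hqq
  apply Subtype.ext
  rw [← hl2 q, ← hl2 q', QuotientGroup.eq, mem_Vn]
  intro f
  let r : S → Equiv.Perm (Fin n) := fun s => f s.1.out
  have h1 : ∃ f : N →* Equiv.Perm (Fin n), ∀ s : S, f s.1.out = r s := ⟨f, fun s => rfl⟩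
  have h2 := congrFun hqq r
  simp only [Φ, h1, dif_pos] at h2
  have h3 : ∀ k ∈ Subgroup.closure St, h1.choose k = f k := by
    intro k hk
    have : Set.EqOn h1.choose f (Subgroup.closure St) := by
      apply MonoidHom.eqOn_closure
      rintro _ ⟨s, hs, rfl⟩
      exact h1.choose_spec ⟨s, hs⟩
    exact this hk
  rw [h3 _ (hl1 q), h3 _ (hl1 q')] at h2
  rw [map_mul, map_inv, h2, inv_mul_cancel]

theorem exists_Vn [Group.ResiduallyFinite N] (g : N) (hg : g ≠ 1) : ∃ n, g ∉ Vn N n := by
  obtain ⟨M, hM⟩ := Group.exists_finiteIndexNormalSubgroup_notMem g hg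
  have hfin : Finite (N ⧸ M.toSubgroup) := by
    have := M.isFiniteIndex'
    infer_instance
  obtain ⟨n, ⟨e⟩⟩ := Finite.exists_equiv_fin (N ⧸ M.toSubgroup)
  refine ⟨n, fun h => hM ?_⟩
  rw [mem_Vn] at h
  have h1 := h ((e.permCongrHom.toMonoidHom).comp (MulAction.toPermHom N (N ⧸ M.toSubgroup)))
  have h2 : MulAction.toPermHom N (N ⧸ M.toSubgroup) g = 1 := by
    have : e.permCongrHom (MulAction.toPermHom N (N ⧸ M.toSubgroup) g) = 1 := h1
    exact (MulEquiv.map_eq_one_iff _).1 this
  have h3 := congrArg (fun σ : Equiv.Perm (N ⧸ M.toSubgroup) => σ ((1 : N) : N ⧸ M.toSubgroup)) h2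
  have h4 : ((g * 1 : N) : N ⧸ M.toSubgroup) = ((1 : N) : N ⧸ M.toSubgroup) := h3
  rw [mul_one] at h4
  have h5 : g⁻¹ * 1 ∈ M.toSubgroup := QuotientGroup.eq.1 h4
  rw [mul_one] at h5
  exact inv_mem_iff.1 h5

end vn

end Pool.Agent.E8helper31.SX
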