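import Pool.Agent.E8helper31.SX.Push
import Pool.Agent.E8helper31.SX.Verbal

/-!
The class of groups all of whose extensions with amenable kernel are sofic.
-/

set_option autoImplicit false

namespace Pool.Agent.E8helper31.SX

open Finset Pool.Agent.H21R2 Monoid

universe u v

section basic

variable {G : Type u} [Group G]

theorem sofic_of_subsingleton [Subsingleton G] : IsSofic G := by
  apply isSofic_of_app.{0}
  intro F ε hε
  refine ⟨Unit, inferInstance, inferInstance, fun _ => 1, rfl, ⟨fun a _ b _ => ?_, fun a _ ha => ?_⟩⟩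
  · simp only [Equiv.Perm.coe_one, id_eq, ne_eq, not_true_eq_false, dens_false]
    exact hε.le
  · exact absurd (Subsingleton.elim a 1) ha

theorem sofic_of_amenable (h : Amenable G) : IsSofic G :=
  sofic_by_amenable (⊥ : Subgroup G) sofic_of_subsingleton
    (amenable_of_equiv QuotientGroup.quotientBot.symm h)

theorem sofic_of_injective {K : Type v} [Group K] (f : G →* K) (hf : Function.Injective f)
    (hK : IsSofic K) : IsSofic G := by
  apply isSofic_of_residually.{v}
  intro g hg
  exact ⟨K, inferInstance, f, hK, fun h => hg (hf (h.trans (map_one f).symm))⟩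

theorem sofic_of_local (h : ∀ S : Finset G, ∃ K : Subgroup G, (S : Set G) ⊆ K ∧ IsSofic K) :
    IsSofic G := by
  classical
  apply isSofic_of_app.{0}
  intro F ε hε
  obtain ⟨K, hFK, hK⟩ := h F
  obtain ⟨n, hn, φ, h1, h2⟩ := exists_app hK (F.subtype (· ∈ K)) ε hε
  refine ⟨Fin n, inferInstance, ⟨⟨0, hn⟩⟩, fun g => if hg : g ∈ K then φ ⟨g, hg⟩ else 1, ?_,
    ⟨fun a ha b hb => ?_, fun a ha ha1 => ?_⟩⟩
  · simp only [one_mem, dif_pos]
    exact h1
  · have ha' : a ∈ K := hFK ha
    have hb' : b ∈ K := hFK hb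
    simp only [mul_mem ha' hb', ha', hb', dif_pos]
    exact h2.mul ⟨a, ha'⟩ (by simpa using ha) ⟨b, hb'⟩ (by simpa using hb)
  · have ha' : a ∈ K := hFK ha
    simp only [ha', dif_pos]
    exact h2.free ⟨a, ha'⟩ (by simpa using ha) (fun h => ha1 (congrArg Subtype.val h))

end basic

/-- every extension of an amenable group by `Γ` is sofic -/
def AE (Γ : Type u) [Group Γ] : Prop :=
  ∀ (G : Type u) [Group G] (f : G →* Γ), Function.Surjective f → Amenable f.ker → IsSofic G

section closure

variable {Γ : Type u} [Group Γ]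

theorem AE.sofic (h : AE Γ) : IsSofic Γ := by
  refine h Γ (MonoidHom.id Γ) Function.surjective_id ?_
  have : Finite (MonoidHom.id Γ).ker := by
    rw [MonoidHom.ker_id]
    infer_instance
  exact amenable_of_finite

theorem AE_of_subsingleton [Subsingleton Γ] : AE Γ := by
  intro G _ f _ hk
  have : f.ker = ⊤ := by
    ext x
    simp only [MonoidHom.mem_ker, Subgroup.mem_top, iff_true]
    exact Subsingleton.elim _ _
  rw [this] at hk
  exact sofic_of_amenable (amenable_of_equiv Subgroup.topEquiv hk)

theorem AE_of_equiv {Δ : Type u} [Group Δ] (e : Γ ≃* Δ) (h : AE Γ) : AE Δ := by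
  intro G _ f hf hk
  refine h G (e.symm.toMonoidHom.comp f) (e.symm.surjective.comp hf) ?_
  have : (e.symm.toMonoidHom.comp f).ker = f.ker := by
    ext x
    simp [MonoidHom.mem_ker]
  rw [this]
  exact hk

theorem amenable_comap {G : Type u} [Group G] (f : G →* Γ) (K : Subgroup Γ)
    (hk : Amenable f.ker) : Amenable (f.subgroupComap K).ker := by
  have h1 : f.ker ≤ K.comap f := by
    intro x hx
    rw [Subgroup.mem_comap, MonoidHom.mem_ker.1 hx]
    exact one_mem K
  have h2 : (f.subgroupComap K).ker = f.ker.subgroupOf (K.comap f) := by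
    ext x
    rw [MonoidHom.mem_ker, Subgroup.mem_subgroupOf, MonoidHom.mem_ker]
    constructor
    · intro h
      exact congrArg Subtype.val h
    · intro h
      exact Subtype.ext h
  rw [h2]
  exact amenable_of_equiv (Subgroup.subgroupOfEquivOfLe h1).symm hk

theorem AE.comap {G : Type u} [Group G] (f : G →* Γ) (hf : Function.Surjective f)
    (hk : Amenable f.ker) (K : Subgroup Γ) (h : AE K) : IsSofic (K.comap f) :=
  h _ (f.subgroupComap K) (f.subgroupComap_surjective_of_surjective K hf) (amenable_comap f K hk)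

theorem AE_ext (N : Subgroup Γ) [N.Normal] (hN : AE N) (hQ : Amenable (Γ ⧸ N)) : AE Γ := by
  intro G _ f hf hk
  refine sofic_by_amenable (N.comap f) (AE.comap f hf hk N hN) ?_
  let q : G →* Γ ⧸ N := (QuotientGroup.mk' N).comp f
  have hq : Function.Surjective q := (QuotientGroup.mk'_surjective N).comp hf
  have h1 : q.ker = N.comap f := by
    ext x
    rw [MonoidHom.mem_ker, Subgroup.mem_comap]
    exact QuotientGroup.eq_one_iff (f x)
  exact amenable_of_equiv ((QuotientGroup.quotientMulEquivOfEq h1).symm.trans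
    (QuotientGroup.quotientKerEquivOfSurjective q hq)).symm hQ

theorem AE_union (h : ∀ S : Finset Γ, ∃ K : Subgroup Γ, (S : Set Γ) ⊆ K ∧ AE K) : AE Γ := by
  classical
  intro G _ f hf hk
  apply sofic_of_local
  intro S
  obtain ⟨K, hSK, hK⟩ := h (S.image f)
  refine ⟨K.comap f, ?_, AE.comap f hf hk K hK⟩
  intro x hx
  exact hSK (mem_coe.2 (mem_image_of_mem f hx))

end closure

section pushout

variable {ι : Type u} {G : ι → Type u} [∀ i, Group (G i)] {H : Type u} [Group H]
  (φ : ∀ i, H →* G i)

theorem reduced_ne_one (hφ : ∀ i, Function.Injective (φ i)) (w : List (Σ i, G i)) (hw : w ≠ [])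
    (h1 : ∀ l ∈ w, l.2 ∉ (φ l.1).range) (h2 : w.IsChain fun a b => a.1 ≠ b.1) :
    (w.map fun l => PushoutI.of (φ := φ) l.1 l.2).prod ≠ 1 := by
  classical
  intro h
  let W : CoprodI.Word G :=
    { toList := w
      ne_one := fun l hl h0 => h1 l hl (by rw [h0]; exact one_mem _)
      chain_ne := h2 }
  have hW : PushoutI.Reduced φ W := fun l hl => h1 l hl
  have hp : PushoutI.ofCoprodI (φ := φ) W.prod =
      (w.map fun l => PushoutI.of (φ := φ) l.1 l.2).prod := by
    rw [CoprodI.Word.prod, map_list_prod, List.map_map]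
    congr 1
  have := PushoutI.Reduced.eq_empty_of_mem_range hφ hW (by
    rw [hp, h]
    exact one_mem _)
  exact hw (congrArg CoprodI.Word.toList this)

theorem AE_pushout [Nonempty ι] (hφ : ∀ i, Function.Injective (φ i)) (hH : Amenable H)
    (hG : ∀ i, AE (G i)) : AE (PushoutI φ) := by
  classical
  intro A _ f hf hk
  obtain ⟨i₀⟩ := ‹Nonempty ι›
  let Ai : ι → Subgroup A := fun i => (PushoutI.of (φ := φ) i).range.comap f
  let A0 : Subgroup A := (PushoutI.base φ).range.comap f
  have hle : ∀ i, A0 ≤ Ai i := by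
    rintro i x ⟨h, hh⟩
    exact ⟨φ i h, by rw [PushoutI.of_apply_eq_base]; exact hh⟩
  let Φ : ∀ i, A0 →* Ai i := fun i => Subgroup.inclusion (hle i)
  have hΦ : ∀ i, Function.Injective (Φ i) := fun i => Subgroup.inclusion_injective (hle i)
  have hof : ∀ i, Function.Injective (PushoutI.of (φ := φ) i) := PushoutI.of_injective hφ
  have hbase : Function.Injective (PushoutI.base φ) := PushoutI.base_injective hφ
  have hAi : ∀ i, IsSofic (Ai i) := fun i =>
    AE.comap f hf hk _ (AE_of_equiv (MonoidHom.ofInjective (hof i)) (hG i))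
  have hA0 : Amenable A0 := by
    let q := f.subgroupComap (PushoutI.base φ).range
    refine amenable_ext q.ker (amenable_comap f _ hk) ?_
    exact amenable_of_equiv ((QuotientGroup.quotientKerEquivOfSurjective q
      (f.subgroupComap_surjective_of_surjective _ hf)).trans
        (MonoidHom.ofInjective hbase).symm).symm hH
  have hsof : IsSofic (PushoutI Φ) := sofic_pushout Φ hΦ hA0 hAi
  let θ : PushoutI Φ →* A := PushoutI.lift (fun i => (Ai i).subtype) A0.subtype fun i => rfl
  have hθof : ∀ i (x : Ai i), θ (PushoutI.of i x) = x := fun i x => PushoutI.lift_of _ _ _ _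
  have hθbase : ∀ x : A0, θ (PushoutI.base Φ x) = x := fun x => PushoutI.lift_base _ _ _ _
  have hsurj : Function.Surjective θ := by
    have h1 : ∀ z : PushoutI φ, ∃ y, f (θ y) = z := by
      intro z
      induction z using PushoutI.induction_on with
      | of i g =>
        obtain ⟨a, ha⟩ := hf (PushoutI.of i g)
        exact ⟨PushoutI.of i ⟨a, g, ha.symm⟩, by rw [hθof]; exact ha⟩
      | base h =>
        obtain ⟨a, ha⟩ := hf (PushoutI.base φ h)
        exact ⟨PushoutI.base Φ ⟨a, h, ha.symm⟩, by rw [hθbase]; exact ha⟩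
      | mul x y hx hy =>
        obtain ⟨a, rfl⟩ := hx
        obtain ⟨b, rfl⟩ := hy
        exact ⟨a * b, by rw [map_mul, map_mul]⟩
    intro a
    obtain ⟨y, hy⟩ := h1 (f a)
    have h2 : (θ y)⁻¹ * a ∈ A0 := by
      refine ⟨1, ?_⟩
      rw [map_mul, map_inv, hy, map_one, inv_mul_cancel]
    exact ⟨y * PushoutI.base Φ ⟨_, h2⟩, by rw [map_mul, hθbase, mul_inv_cancel_left]⟩
  have hinj : Function.Injective θ := by
    rw [injective_iff_map_eq_one]
    intro z hz
    rcases exists_rep Φ hΦ z with ⟨h, rfl⟩ | ⟨w, hw1, hw2, hw3, rfl⟩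
    · rw [hθbase] at hz
      have : h = 1 := Subtype.ext hz
      rw [this, map_one]
    · exfalso
      have hg : ∀ i (x : Ai i), ∃ g : G i, PushoutI.of (φ := φ) i g = f x := fun i x => x.2
      choose g hg using hg
      apply reduced_ne_one φ hφ (w.map fun l => (⟨l.1, g l.1 l.2⟩ : Σ i, G i))
      · simpa using hw1
      · intro l hl
        obtain ⟨l', hl', rfl⟩ := List.mem_map.1 hl
        rintro ⟨h, hh⟩
        apply hw2 l' hl'
        refine ⟨⟨(l'.2 : A), h, ?_⟩, Subtype.ext rfl⟩
        have h3 : φ l'.1 h = g l'.1 l'.2 := hh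
        rw [← hg, ← h3, PushoutI.of_apply_eq_base]
      · rw [List.isChain_map]
        exact hw3
      · have h1 : f (θ (w.map fun l => PushoutI.of (φ := Φ) l.1 l.2).prod) = 1 := by
          rw [hz, map_one]
        rw [map_list_prod, map_list_prod, List.map_map, List.map_map] at h1
        rw [List.map_map, ← h1]
        congr 1
        apply List.map_congr_left
        intro l _
        simp only [Function.comp]
        rw [hθof, hg]
  exact sofic_of_injective (MulEquiv.ofBijective θ ⟨hinj, hsurj⟩).symm.toMonoidHom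
    (MulEquiv.injective _) hsof

end pushout

end Pool.Agent.E8helper31.SX
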