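import Pool.Agent.E8helper31.SX.Rokhlin

/-!
Free approximate actions of a sofic group together with an almost equivariant map to an amenable
subgroup.
-/

set_option autoImplicit false

namespace Pool.Agent.E8helper31.SX

open Finset Pool.Agent.H21R2

theorem exists_app2 {G : Type*} [Group G] (hG : IsSofic G) (F : Finset G) (δ : ℝ) (hδ : 0 < δ) :
    ∃ n : ℕ, 1 ≤ n ∧ ∃ σ : G → Equiv.Perm (Fin n), σ 1 = 1 ∧
      (∀ a ∈ F, ∀ b ∈ F, dens (fun x => σ (a * b) x ≠ σ a (σ b x)) ≤ δ) ∧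
      (∀ a ∈ F, ∀ b ∈ F, a ≠ b → dens (fun x => σ a x = σ b x) ≤ δ) := by
  classical
  let F' : Finset G := F ∪ F.image (·⁻¹) ∪ image₂ (fun a b => a⁻¹ * b) F F
  obtain ⟨n, hn, σ, h1, h2, h3⟩ := exists_app hG F' (δ / 3) (by positivity)
  have hF : ∀ a ∈ F, a ∈ F' := fun a ha => mem_union_left _ (mem_union_left _ ha)
  have hF2 : ∀ a ∈ F, a⁻¹ ∈ F' := fun a ha =>
    mem_union_left _ (mem_union_right _ (mem_image_of_mem _ ha))
  have hF3 : ∀ a ∈ F, ∀ b ∈ F, a⁻¹ * b ∈ F' := fun a ha b hb =>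
    mem_union_right _ (mem_image₂.2 ⟨a, ha, b, hb, rfl⟩)
  refine ⟨n, hn, σ, h1, fun a ha b hb => (h2 a (hF a ha) b (hF b hb)).trans (by linarith), ?_⟩
  intro a ha b hb hab
  have e1 := h2 a⁻¹ (hF2 a ha) a (hF a ha)
  have e2 := h2 a⁻¹ (hF2 a ha) b (hF b hb)
  have e3 := h3 (a⁻¹ * b) (hF3 a ha b hb) (fun h => hab (inv_mul_eq_one.1 h))
  refine le_trans (dens_mono (Q := fun x => (σ (a⁻¹ * a) x ≠ σ a⁻¹ (σ a x) ∨
    σ (a⁻¹ * b) x ≠ σ a⁻¹ (σ b x)) ∨ σ (a⁻¹ * b) x = x) ?_) ?_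
  · intro x hx
    by_contra hcon
    push Not at hcon
    obtain ⟨⟨h4, h5⟩, h6⟩ := hcon
    apply h6
    rw [h5, ← hx, ← h4, inv_mul_cancel, h1]
    rfl
  · have e4 := dens_or (fun x => σ (a⁻¹ * a) x ≠ σ a⁻¹ (σ a x) ∨
      σ (a⁻¹ * b) x ≠ σ a⁻¹ (σ b x)) (fun x => σ (a⁻¹ * b) x = x)
    have e5 := dens_or (fun x => σ (a⁻¹ * a) x ≠ σ a⁻¹ (σ a x))
      (fun x => σ (a⁻¹ * b) x ≠ σ a⁻¹ (σ b x))
    linarith

open Classical in
theorem exists_local {G H : Type*} [Group G] [Group H] (hG : IsSofic G) (φ : H →* G)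
    (hφ : Function.Injective φ) (P : Finset H) (hP : P.Nonempty) (S : Finset H) (ε : ℝ)
    (hε : 0 < ε) (hS1 : ∀ h ∈ S, ((P.filter fun t => h * t ∉ P).card : ℝ) ≤ ε * P.card)
    (hS2 : ∀ h ∈ S, ((P.filter fun t => h⁻¹ * t ∉ P).card : ℝ) ≤ ε * P.card)
    (F : Finset G) (δ : ℝ) (hδ : 0 < δ) :
    ∃ n : ℕ, 1 ≤ n ∧ ∃ (τ : G → Equiv.Perm (Fin n × Equiv.Perm (Fin n)))
      (s : Fin n × Equiv.Perm (Fin n) → H), τ 1 = 1 ∧ (∀ z, s z ∈ P) ∧
      (∀ a ∈ F, ∀ b ∈ F, dens (fun x => τ (a * b) x ≠ τ a (τ b x)) ≤ δ) ∧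
      (∀ a ∈ F, ∀ b ∈ F, a ≠ b → dens (fun x => τ a x = τ b x) ≤ δ) ∧
      (∀ h ∈ S, dens (fun z => s (τ (φ h) z) ≠ h * s z) ≤ 3 * ε) := by
  let P' : Finset H := P ∪ image₂ (fun h q => h⁻¹ * q) S P ∪ S
  have hP' : ∀ p ∈ P, p ∈ P' := fun p hp => mem_union_left _ (mem_union_left _ hp)
  have hP'2 : ∀ h ∈ S, ∀ q ∈ P, h⁻¹ * q ∈ P' := fun h hh q hq =>
    mem_union_left _ (mem_union_right _ (mem_image₂.2 ⟨h, hh, q, hq, rfl⟩))
  have hP'3 : ∀ h ∈ S, h ∈ P' := fun h hh => mem_union_right _ hh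
  set c : ℝ := P.card + (P'.card : ℝ) ^ 2 with hc
  have hPn : (0 : ℝ) < P.card := by exact_mod_cast hP.card_pos
  have hc0 : 0 < c := by positivity
  set δ' : ℝ := min δ (ε / c) with hδ'
  have hδ'0 : 0 < δ' := lt_min hδ (by positivity)
  obtain ⟨n, hn, σ, h1, h2, h3⟩ := exists_app2 hG (F ∪ P'.image φ) δ' hδ'0
  have hFF : ∀ a ∈ F, a ∈ F ∪ P'.image φ := fun a ha => mem_union_left _ ha
  have hFP : ∀ p ∈ P', φ p ∈ F ∪ P'.image φ := fun p hp =>
    mem_union_right _ (mem_image_of_mem _ hp)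
  have hδδ : δ' ≤ δ := min_le_left _ _
  let τ : G → Equiv.Perm (Fin n × Equiv.Perm (Fin n)) := fun g =>
    Equiv.prodCongr (σ g) (Equiv.refl _)
  have hτ : ∀ g z, τ g z = (σ g z.1, z.2) := fun g z => rfl
  refine ⟨n, hn, τ, sec P hP (fun h => σ (φ h)), ?_, sec_mem P hP _, ?_, ?_, ?_⟩
  · ext1 z
    rw [hτ, h1]
    rfl
  · intro a ha b hb
    refine le_trans ?_ ((h2 a (hFF a ha) b (hFF b hb)).trans hδδ)
    rw [← dens_fst (Y := Equiv.Perm (Fin n)) (fun x => σ (a * b) x ≠ σ a (σ b x))]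
    apply dens_mono
    intro z hz hcon
    apply hz
    rw [hτ, hτ, hτ, hcon]
  · intro a ha b hb hab
    refine le_trans ?_ ((h3 a (hFF a ha) b (hFF b hb) hab).trans hδδ)
    rw [← dens_fst (Y := Equiv.Perm (Fin n)) (fun x => σ a x = σ b x)]
    apply dens_mono
    intro z hz
    exact congrArg Prod.fst hz
  · intro h hh
    let σ' : H → Equiv.Perm (Fin n) := fun k => σ (φ k)
    let bad1 : Fin n → Prop := fun x => ∃ q ∈ P, σ' q ((σ' (h⁻¹ * q)).symm x) ≠ σ' h x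
    let bad2 : Fin n → Prop := fun x => ∃ r ∈ P', ∃ r' ∈ P', r ≠ r' ∧
      (σ' r).symm x = (σ' r').symm x
    have hb1 : dens bad1 ≤ P.card * δ' := by
      refine (dens_exists P _).trans ?_
      have : ∀ q ∈ P, dens (fun x => σ' q ((σ' (h⁻¹ * q)).symm x) ≠ σ' h x) ≤ δ' := by
        intro q hq
        have h4 := h2 (φ h) (hFP h (hP'3 h hh)) (φ (h⁻¹ * q)) (hFP _ (hP'2 h hh q hq))
        rw [← dens_equiv (σ' (h⁻¹ * q)).symm, ← map_mul, mul_inv_cancel_left] at h4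
        refine le_trans (dens_mono ?_) h4
        intro x hx hcon
        apply hx
        show σ (φ q) _ = _
        rw [hcon]
        show σ (φ h) (σ' (h⁻¹ * q) ((σ' (h⁻¹ * q)).symm x)) = _
        rw [Equiv.apply_symm_apply]
      refine (sum_le_sum this).trans ?_
      rw [sum_const, nsmul_eq_mul]
    have hb2 : dens bad2 ≤ (P'.card : ℝ) ^ 2 * δ' := by
      refine (dens_exists P' _).trans ?_
      have : ∀ r ∈ P', dens (fun x => ∃ r' ∈ P', r ≠ r' ∧ (σ' r).symm x = (σ' r').symm x) ≤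
          P'.card * δ' := by
        intro r hr
        refine (dens_exists P' _).trans ?_
        have : ∀ r' ∈ P', dens (fun x => r ≠ r' ∧ (σ' r).symm x = (σ' r').symm x) ≤ δ' := by
          intro r' hr'
          by_cases hrr : r = r'
          · have : dens (fun x : Fin n => r ≠ r' ∧ (σ' r).symm x = (σ' r').symm x) ≤
                dens (fun _ : Fin n => False) := dens_mono fun x hx => hx.1 hrr
            rw [dens_false] at this
            linarith
          · have h4 := h3 (φ r) (hFP r hr) (φ r') (hFP r' hr') (fun h => hrr (hφ h))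
            rw [← dens_equiv (σ' r).symm] at h4
            refine le_trans (dens_mono ?_) h4
            rintro x ⟨_, hx⟩
            show σ' r ((σ' r).symm x) = σ' r' ((σ' r).symm x)
            rw [Equiv.apply_symm_apply, hx, Equiv.apply_symm_apply]
        refine (sum_le_sum this).trans ?_
        rw [sum_const, nsmul_eq_mul]
      refine (sum_le_sum this).trans ?_
      rw [sum_const, nsmul_eq_mul]
      apply le_of_eq
      ring
    have hcε : (P.card : ℝ) * δ' + (P'.card : ℝ) ^ 2 * δ' ≤ ε := by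
      have h4 : δ' ≤ ε / c := min_le_right _ _
      rw [le_div_iff₀ hc0] at h4
      calc (P.card : ℝ) * δ' + (P'.card : ℝ) ^ 2 * δ' = δ' * c := by rw [hc]; ring
        _ ≤ ε := h4
    have hgood : ∀ x, ¬ bad1 x → ¬ bad2 x →
        dens (fun π => sec P hP σ' (σ' h x, π) ≠ h * sec P hP σ' (x, π)) ≤ 2 * ε := by
      intro x hx1 hx2
      simp only [bad1, bad2] at hx1 hx2
      push Not at hx1 hx2
      refine dens_sec P hP h ε (hS1 h hh) (hS2 h hh) σ' x ?_ ?_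
      · intro q hq
        rw [Equiv.symm_apply_eq]
        exact (hx1 q hq).symm
      · have hmem : ∀ r ∈ (P ∪ P.image (h⁻¹ * ·) : Finset H), r ∈ P' := by
          intro r hr
          rcases mem_union.1 hr with hr | hr
          · exact hP' r hr
          · obtain ⟨q, hq, rfl⟩ := mem_image.1 hr
            exact hP'2 h hh q hq
        intro r hr r' hr' hrr
        by_contra hne
        exact hx2 r (hmem r hr) r' (hmem r' hr') hne hrr
    have h5 : dens (fun z : Fin n × Equiv.Perm (Fin n) =>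
        sec P hP σ' (τ (φ h) z) ≠ h * sec P hP σ' z) ≤
        dens (fun z : Fin n × Equiv.Perm (Fin n) => bad1 z.1 ∨ bad2 z.1) +
        dens (fun z : Fin n × Equiv.Perm (Fin n) => ¬ (bad1 z.1 ∨ bad2 z.1) ∧
          sec P hP σ' (σ' h z.1, z.2) ≠ h * sec P hP σ' (z.1, z.2)) := by
      refine le_trans (dens_mono ?_) (dens_or _ _)
      intro z hz
      by_cases hb : bad1 z.1 ∨ bad2 z.1
      · exact Or.inl hb
      · exact Or.inr ⟨hb, hz⟩
    have h6 : dens (fun z : Fin n × Equiv.Perm (Fin n) => bad1 z.1 ∨ bad2 z.1) ≤ ε := by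
      rw [dens_fst (Y := Equiv.Perm (Fin n)) (fun x => bad1 x ∨ bad2 x)]
      refine (dens_or _ _).trans ?_
      linarith
    have h7 : dens (fun z : Fin n × Equiv.Perm (Fin n) => ¬ (bad1 z.1 ∨ bad2 z.1) ∧
          sec P hP σ' (σ' h z.1, z.2) ≠ h * sec P hP σ' (z.1, z.2)) ≤ 2 * ε := by
      apply dens_prod_le _ _ (by positivity)
      intro x
      by_cases hb : bad1 x ∨ bad2 x
      · have : dens (fun π : Equiv.Perm (Fin n) => ¬ (bad1 x ∨ bad2 x) ∧
            sec P hP σ' (σ' h x, π) ≠ h * sec P hP σ' (x, π)) ≤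
            dens (fun _ : Equiv.Perm (Fin n) => False) := dens_mono fun π hπ => hπ.1 hb
        rw [dens_false] at this
        exact this.trans (by positivity)
      · push Not at hb
        exact le_trans (dens_mono fun π hπ => hπ.2) (hgood x hb.1 hb.2)
    show dens (fun z : Fin n × Equiv.Perm (Fin n) =>
        sec P hP σ' (τ (φ h) z) ≠ h * sec P hP σ' z) ≤ 3 * ε
    linarith

end Pool.Agent.E8helper31.SX
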