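import Pool.Agent.E8helper31.SX.Emb

/-!
Extensions with quotient in the class `Tower` are sofic if the kernel is residually amenable or
residually virtually solvable, in an invariant way.
-/

set_option autoImplicit false

namespace Pool.Agent.E8helper31.SX

open Finset Pool.Agent.H21R2 Monoid

universe u

theorem ResVirtSolv.of_injective {N M : Type u} [Group N] [Group M] (j : M →* N)
    (hj : Function.Injective j) (h : ResVirtSolv N) : ResVirtSolv M := by
  intro g hg
  obtain ⟨Q, _, f, R, h1, h2, h3, h4⟩ := h (j g) (fun h0 => hg (hj (h0.trans (map_one j).symm)))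
  exact ⟨Q, inferInstance, f.comp j, R, h1, h2, h3, h4⟩

section quot

variable {G : Type u} [Group G] (N V : Subgroup G) [N.Normal] [V.Normal] (h : V ≤ N)

/-- the image of `N` in `G ⧸ V` -/
noncomputable def quotEquiv : N.map (QuotientGroup.mk' V) ≃* N ⧸ V.subgroupOf N := by
  let q : N →* N.map (QuotientGroup.mk' V) := (QuotientGroup.mk' V).subgroupMap N
  have hq : Function.Surjective q := (QuotientGroup.mk' V).subgroupMap_surjective N
  have hk : q.ker = V.subgroupOf N := by
    ext x
    rw [MonoidHom.mem_ker, Subgroup.mem_subgroupOf]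
    constructor
    · intro hx
      exact (QuotientGroup.eq_one_iff _).1 (congrArg Subtype.val hx)
    · intro hx
      exact Subtype.ext ((QuotientGroup.eq_one_iff _).2 hx)
  exact (QuotientGroup.quotientKerEquivOfSurjective q hq).symm.trans
    (QuotientGroup.quotientMulEquivOfEq hk)

include h in
theorem sofic_quot (hQ : AE (G ⧸ N))
    (hA : Amenable (N ⧸ V.subgroupOf N) ∨ ResVirtSolv (N ⧸ V.subgroupOf N)) :
    IsSofic (G ⧸ V) := by
  have hQ' : AE ((G ⧸ V) ⧸ N.map (QuotientGroup.mk' V)) :=
    AE_of_equiv (QuotientGroup.quotientQuotientEquivQuotient V N h).symm hQ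
  rcases hA with hA | hA
  · have hA' : Amenable (N.map (QuotientGroup.mk' V)) := amenable_of_equiv (quotEquiv N V).symm hA
    refine hQ' (G ⧸ V) (QuotientGroup.mk' _) (QuotientGroup.mk'_surjective _) ?_
    rw [QuotientGroup.ker_mk']
    exact hA'
  · exact sofic_of_resVirtSolv (N.map (QuotientGroup.mk' V)) hQ'
      (hA.of_injective (quotEquiv N V).toMonoidHom (quotEquiv N V).injective)

end quot

theorem sofic_main {G : Type u} [Group G] (N : Subgroup G) [N.Normal] (hΓ : Tower (G ⧸ N))
    (hN : ∀ g ∈ N, g ≠ 1 → ∃ (V : Subgroup G) (_ : V.Normal), V ≤ N ∧ g ∉ V ∧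
      (Amenable (N ⧸ V.subgroupOf N) ∨ ResVirtSolv (N ⧸ V.subgroupOf N))) : IsSofic G := by
  apply isSofic_of_residually.{u}
  intro g hg
  by_cases hgN : g ∈ N
  · obtain ⟨V, hV, hVN, hgV, hA⟩ := hN g hgN hg
    exact ⟨G ⧸ V, inferInstance, QuotientGroup.mk' V, sofic_quot N V hVN hΓ.ae hA, fun h =>
      hgV ((QuotientGroup.eq_one_iff g).1 h)⟩
  · exact ⟨G ⧸ N, inferInstance, QuotientGroup.mk' N, hΓ.ae.sofic, fun h =>
      hgN ((QuotientGroup.eq_one_iff g).1 h)⟩

end Pool.Agent.E8helper31.SX
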