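import Pool.Agent.E8helper31.SX.Amal

/-!
Amalgamated free products of sofic groups over a common amenable subgroup are sofic.
-/

set_option autoImplicit false

namespace Pool.Agent.E8helper31.SX

open Finset Pool.Agent.H21R2 Filter Topology Monoid

universe u v w

section null

variable {κ : Type u} (l : Filter κ) (Y : κ → Type v) [∀ k, Fintype (Y k)]

/-- the sequences of permutations tending to the identity -/
def Null : Subgroup (∀ k, Equiv.Perm (Y k)) where
  carrier := {σ | Tendsto (fun k => dens (fun y => σ k y ≠ y)) l (𝓝 0)}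
  mul_mem' := by
    intro σ τ hσ hτ
    have h1 : Tendsto (fun k => dens (fun y => σ k y ≠ y) + dens (fun y => τ k y ≠ y)) l (𝓝 0) := by
      have := hσ.add hτ
      rwa [add_zero] at this
    refine squeeze_zero (fun k => dens_nonneg _) (fun k => ?_) h1
    have h2 : dens (fun y => (σ * τ) k y ≠ y) ≤
        dens (fun y => σ k (τ k y) ≠ τ k y) + dens (fun y => τ k y ≠ y) := by
      refine le_trans (dens_mono ?_) (dens_or _ _)
      intro y hy
      by_contra hcon
      push Not at hcon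
      apply hy
      show σ k (τ k y) = y
      rw [hcon.1, hcon.2]
    have h3 : dens (fun y => σ k (τ k y) ≠ τ k y) = dens (fun y => σ k y ≠ y) :=
      dens_equiv (τ k) (fun y => σ k y ≠ y)
    rw [h3] at h2
    exact h2
  one_mem' := by
    have : ∀ k, dens (fun y : Y k => (1 : ∀ k, Equiv.Perm (Y k)) k y ≠ y) = 0 := by
      intro k
      rw [← dens_false (X := Y k)]
      apply dens_congr
      intro y
      simp
    show Tendsto (fun k => dens (fun y : Y k => (1 : ∀ k, Equiv.Perm (Y k)) k y ≠ y)) l (𝓝 0)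
    simp only [this]
    exact tendsto_const_nhds
  inv_mem' := by
    intro σ hσ
    have : ∀ k, dens (fun y : Y k => (σ⁻¹) k y ≠ y) = dens (fun y => σ k y ≠ y) := by
      intro k
      rw [← dens_equiv (σ k)]
      apply dens_congr
      intro y
      show (σ k)⁻¹ (σ k y) ≠ σ k y ↔ _
      have h0 : (σ k)⁻¹ (σ k y) = y := (σ k).symm_apply_apply y
      rw [h0]
      exact ne_comm
    show Tendsto (fun k => dens (fun y : Y k => (σ⁻¹) k y ≠ y)) l (𝓝 0)
    simp only [this]
    exact hσ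

instance : (Null l Y).Normal := by
  constructor
  intro σ hσ τ
  have : ∀ k, dens (fun y : Y k => (τ * σ * τ⁻¹) k y ≠ y) = dens (fun y => σ k y ≠ y) := by
    intro k
    rw [← dens_equiv (τ k)]
    apply dens_congr
    intro y
    simp
  show Tendsto (fun k => dens (fun y : Y k => (τ * σ * τ⁻¹) k y ≠ y)) l (𝓝 0)
  simp only [this]
  exact hσ

theorem mk_eq (σ τ : ∀ k, Equiv.Perm (Y k)) :
    (σ : (∀ k, Equiv.Perm (Y k)) ⧸ Null l Y) = τ ↔
      Tendsto (fun k => dens (fun y => σ k y ≠ τ k y)) l (𝓝 0) := by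
  rw [QuotientGroup.eq]
  have : ∀ k, dens (fun y : Y k => (σ⁻¹ * τ) k y ≠ y) = dens (fun y => σ k y ≠ τ k y) := by
    intro k
    apply dens_congr
    intro y
    rw [not_iff_not]
    show (σ k)⁻¹ (τ k y) = y ↔ _
    rw [Equiv.Perm.inv_eq_iff_eq]
    exact eq_comm
  show Tendsto (fun k => dens (fun y : Y k => (σ⁻¹ * τ) k y ≠ y)) l (𝓝 0) ↔ _
  simp only [this]

end null

section rep

variable {ι : Type u} {G : ι → Type u} [∀ i, Group (G i)] {H : Type u} [Group H]
  (φ : ∀ i, H →* G i)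

theorem exists_rep (hφ : ∀ i, Function.Injective (φ i)) (z : PushoutI φ) :
    (∃ h, z = PushoutI.base φ h) ∨
    ∃ w : List (Σ i, G i), w ≠ [] ∧ (∀ l ∈ w, l.2 ∉ (φ l.1).range) ∧
      (w.IsChain fun a b => a.1 ≠ b.1) ∧
      z = (w.map fun l => PushoutI.of (φ := φ) l.1 l.2).prod := by
  classical
  obtain ⟨d⟩ := PushoutI.NormalWord.transversal_nonempty φ hφ
  obtain ⟨w, rfl⟩ : ∃ w : PushoutI.NormalWord d, w.prod = z :=
    ⟨(PushoutI.NormalWord.equiv (d := d)) z, (PushoutI.NormalWord.equiv (d := d)).symm_apply_apply z⟩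
  have hprod : w.prod = PushoutI.base φ w.head *
      (w.toList.map fun l => PushoutI.of (φ := φ) l.1 l.2).prod := by
    rw [PushoutI.NormalWord.prod]
    congr 1
    rw [CoprodI.Word.prod, map_list_prod, List.map_map]
    congr 1
  have hnr : ∀ l ∈ w.toList, l.2 ∉ (φ l.1).range := by
    rintro ⟨i, g⟩ hl hg
    have h1 : g ∈ d.set i := w.normalized i g hl
    have h2 : g ≠ 1 := w.ne_one ⟨i, g⟩ hl
    have h3 := (d.compl i).1
    have h4 : ((⟨⟨g, hg⟩, ⟨1, d.one_mem i⟩⟩ : ((φ i).range : Set (G i)) × d.set i)) =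
        ⟨⟨1, one_mem _⟩, ⟨g, h1⟩⟩ := by
      apply h3
      simp
    have h5 := congrArg (fun p => (p.2 : G i)) h4
    exact h2 h5.symm
  rcases hw : w.toList with _ | ⟨l, L⟩
  · left
    refine ⟨w.head, ?_⟩
    rw [hprod, hw]
    simp
  · right
    refine ⟨⟨l.1, φ l.1 w.head * l.2⟩ :: L, by simp, ?_, ?_, ?_⟩
    · intro l' hl'
      rcases List.mem_cons.1 hl' with rfl | hl'
      · intro hr
        apply hnr l (by rw [hw]; exact List.mem_cons_self)
        have := mul_mem (inv_mem (MonoidHom.mem_range.2 ⟨w.head, rfl⟩ :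
          φ l.1 w.head ∈ (φ l.1).range)) hr
        simpa using this
      · exact hnr l' (by rw [hw]; exact List.mem_cons_of_mem _ hl')
    · have h1 := w.chain_ne
      rw [hw] at h1
      cases L with
      | nil => exact List.isChain_singleton _
      | cons l' L' =>
        rw [List.isChain_cons_cons] at h1 ⊢
        exact h1
    · rw [hprod, hw]
      simp only [List.map_cons, List.prod_cons, map_mul]
      rw [PushoutI.of_apply_eq_base, mul_assoc]

end rep

variable {ι : Type u} {G : ι → Type u} [∀ i, Group (G i)] {H : Type u} [Group H]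

theorem sofic_pushout [Nonempty ι] (φ : ∀ i, H →* G i) (hφ : ∀ i, Function.Injective (φ i))
    (hH : Amenable H) (hG : ∀ i, IsSofic (G i)) : IsSofic (PushoutI φ) := by
  classical
  obtain ⟨i₀⟩ := ‹Nonempty ι›
  let κ := Finset (Σ i, G i) × ℕ
  choose Y hY1 hY2 Θ h1 h2 h3 h4 using fun k : κ =>
    exists_data i₀ φ hφ hH hG k.1 (1 / ((k.2 : ℝ) + 1) ^ 2) (by positivity) k.2
  have hlim : Tendsto (fun k : κ => 1 / ((k.2 : ℝ) + 1)) atTop (𝓝 0) := by
    have ha : Tendsto (fun k : κ => k.2) atTop atTop := tendsto_snd.mono_left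
      (by rw [← prod_atTop_atTop_eq])
    exact (tendsto_one_div_add_atTop_nhds_zero_nat).comp ha
  have hle : ∀ k : κ, 1 / ((k.2 : ℝ) + 1) ^ 2 ≤ 1 / ((k.2 : ℝ) + 1) := by
    intro k
    apply one_div_le_one_div_of_le (by positivity)
    nlinarith [(Nat.cast_nonneg k.2 : (0 : ℝ) ≤ k.2)]
  have hS : ∀ s : Σ i, G i, ∀ᶠ k : κ in atTop, s ∈ k.1 := by
    intro s
    filter_upwards [eventually_ge_atTop (({s}, 0) : κ)] with k hk
    exact hk.1 (mem_singleton_self s)
  let N := Null (atTop : Filter κ) Y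
  let f : ∀ i, G i →* (∀ k, Equiv.Perm (Y k)) ⧸ N := fun i =>
    MonoidHom.mk' (fun a => ((fun k => Θ k i a : ∀ k, Equiv.Perm (Y k)) :
      (∀ k, Equiv.Perm (Y k)) ⧸ N)) (by
        intro a b
        rw [← QuotientGroup.mk_mul, mk_eq]
        refine squeeze_zero' (Eventually.of_forall fun k => dens_nonneg _) ?_ hlim
        filter_upwards [hS ⟨i, a⟩, hS ⟨i, b⟩] with k ha hb
        exact (h1 k i a b ha hb).trans (hle k))
  have hf : ∀ i a, f i a = ((fun k => Θ k i a : ∀ k, Equiv.Perm (Y k)) :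
      (∀ k, Equiv.Perm (Y k)) ⧸ N) := fun i a => rfl
  have hcompat : ∀ i, (f i).comp (φ i) = (f i₀).comp (φ i₀) := by
    intro i
    ext1 h
    show f i (φ i h) = f i₀ (φ i₀ h)
    rw [hf, hf, mk_eq]
    refine squeeze_zero' (Eventually.of_forall fun k => dens_nonneg _) ?_ hlim
    filter_upwards [hS ⟨i, φ i h⟩, hS ⟨i₀, φ i₀ h⟩] with k ha hb
    exact (h2 k i i₀ h ha hb).trans (hle k)
  let θ : PushoutI φ →* (∀ k, Equiv.Perm (Y k)) ⧸ N :=
    PushoutI.lift f ((f i₀).comp (φ i₀)) hcompat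
  have hθw : ∀ w : List (Σ i, G i), θ (w.map fun l => PushoutI.of (φ := φ) l.1 l.2).prod =
      ((fun k => prodW (Θ k) w : ∀ k, Equiv.Perm (Y k)) : (∀ k, Equiv.Perm (Y k)) ⧸ N) := by
    intro w
    induction w with
    | nil => simp [prodW_nil]; rfl
    | cons l w ih =>
      rw [List.map_cons, List.prod_cons, map_mul, ih]
      have h5 : θ (PushoutI.of l.1 l.2) = f l.1 l.2 := PushoutI.lift_of _ _ _ _
      rw [h5, hf, ← QuotientGroup.mk_mul]
      congr 1
  have hdist : ∀ w : List (Σ i, G i), w ≠ [] → (∀ l ∈ w, l.2 ∉ (φ l.1).range) →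
      (w.IsChain fun a b => a.1 ≠ b.1) →
      Tendsto (fun k => dens (fun y => prodW (Θ k) w y = y)) atTop (𝓝 0) := by
    intro w hw1 hw2 hw3
    refine squeeze_zero' (Eventually.of_forall fun k => dens_nonneg _) ?_ hlim
    have h6 : ∀ᶠ k : κ in atTop, ∀ l ∈ w.toFinset, l ∈ k.1 := by
      rw [eventually_all_finset]
      intro l _
      exact hS l
    filter_upwards [h6, eventually_ge_atTop ((∅, w.length) : κ)] with k ha hb
    refine (h4 k w hw1 hb.2 (fun l hl => ha l (List.mem_toFinset.2 hl)) hw2 hw3).trans ?_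
    have h7 : (w.length : ℝ) ≤ k.2 + 1 := by
      have : w.length ≤ k.2 := hb.2
      have : (w.length : ℝ) ≤ k.2 := by exact_mod_cast this
      linarith
    calc (w.length : ℝ) * (1 / ((k.2 : ℝ) + 1) ^ 2) ≤ (k.2 + 1) * (1 / ((k.2 : ℝ) + 1) ^ 2) :=
          mul_le_mul_of_nonneg_right h7 (by positivity)
      _ = 1 / ((k.2 : ℝ) + 1) := by field_simp
  -- words for all elements
  have hrep : ∀ z : PushoutI φ, ∃ w : List (Σ i, G i),
      θ z = ((fun k => prodW (Θ k) w : ∀ k, Equiv.Perm (Y k)) : (∀ k, Equiv.Perm (Y k)) ⧸ N) ∧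
      (z = 1 → w = []) ∧
      (z ≠ 1 → Tendsto (fun k => dens (fun y => prodW (Θ k) w y = y)) atTop (𝓝 0)) := by
    intro z
    by_cases hz : z = 1
    · refine ⟨[], ?_, fun _ => rfl, fun h => absurd hz h⟩
      rw [hz, map_one]
      rfl
    · rcases exists_rep φ hφ z with ⟨h, rfl⟩ | ⟨w, hw1, hw2, hw3, rfl⟩
      · refine ⟨[⟨i₀, φ i₀ h⟩], ?_, fun h => absurd h hz, fun _ => ?_⟩
        · rw [← hθw]
          simp [PushoutI.of_apply_eq_base]
        · have hh : h ≠ 1 := by
            rintro rfl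
            exact hz (map_one _)
          refine squeeze_zero' (Eventually.of_forall fun k => dens_nonneg _) ?_ hlim
          filter_upwards [hS ⟨i₀, φ i₀ h⟩] with k ha
          refine le_trans (dens_mono ?_) ((h3 k i₀ (φ i₀ h)
            (fun h' => hh (hφ i₀ (h'.trans (map_one _).symm))) ha).trans (hle k))
          intro y hy
          rw [prodW_cons, prodW_nil] at hy
          exact hy
      · exact ⟨w, hθw w, fun h => absurd h hz, fun _ => hdist w hw1 hw2 hw3⟩
  choose W hW1 hW2 hW3 using hrep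
  apply isSofic_of_app.{u}
  intro F ε hε
  have e1 : ∀ᶠ k : κ in atTop, ∀ a ∈ F, ∀ b ∈ F,
      dens (fun y => prodW (Θ k) (W (a * b)) y ≠ prodW (Θ k) (W a) (prodW (Θ k) (W b) y)) ≤ ε := by
    rw [eventually_all_finset]
    intro a _
    rw [eventually_all_finset]
    intro b _
    have h5 : ((fun k => prodW (Θ k) (W (a * b)) : ∀ k, Equiv.Perm (Y k)) :
        (∀ k, Equiv.Perm (Y k)) ⧸ N) =
        ((fun k => prodW (Θ k) (W a) * prodW (Θ k) (W b) : ∀ k, Equiv.Perm (Y k)) :
        (∀ k, Equiv.Perm (Y k)) ⧸ N) := by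
      rw [← hW1, map_mul, hW1 a, hW1 b, ← QuotientGroup.mk_mul]
      rfl
    rw [mk_eq] at h5
    exact (h5.eventually (eventually_le_nhds hε)).mono fun k hk => hk
  have e2 : ∀ᶠ k : κ in atTop, ∀ a ∈ F, a ≠ 1 →
      dens (fun y => prodW (Θ k) (W a) y = y) ≤ ε := by
    rw [eventually_all_finset]
    intro a _
    by_cases ha : a = 1
    · exact Eventually.of_forall fun k h => absurd ha h
    · exact ((hW3 a ha).eventually (eventually_le_nhds hε)).mono fun k hk _ => hk
  obtain ⟨k, hk1, hk2⟩ := (e1.and e2).exists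
  refine ⟨Y k, hY1 k, hY2 k, fun a => prodW (Θ k) (W a), ?_, ⟨hk1, hk2⟩⟩
  show prodW (Θ k) (W 1) = 1
  rw [hW2 1 rfl, prodW_nil]

end Pool.Agent.E8helper31.SX
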