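import Pool.Agent.E8helper31.SX.Ext

/-!
Extensions of residually amenable groups, where the kernels are invariant.
-/

set_option autoImplicit false

namespace Pool.Agent.E8helper31.SX

open Finset Pool.Agent.H21R2

universe u v

/-- quotients in two steps -/
theorem amenable_two {N : Type*} [Group N] (V W : Subgroup N) [V.Normal] [W.Normal] (h : V ≤ W)
    (h1 : Amenable (W ⧸ V.subgroupOf W)) (h2 : Amenable (N ⧸ W)) : Amenable (N ⧸ V) := by
  refine amenable_ext (W.map (QuotientGroup.mk' V)) ?_ ?_
  · let q : W →* W.map (QuotientGroup.mk' V) := (QuotientGroup.mk' V).subgroupMap W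
    have hq : Function.Surjective q := (QuotientGroup.mk' V).subgroupMap_surjective W
    have hk : q.ker = V.subgroupOf W := by
      ext x
      rw [MonoidHom.mem_ker, Subgroup.mem_subgroupOf]
      constructor
      · intro hx
        exact (QuotientGroup.eq_one_iff _).1 (congrArg Subtype.val hx)
      · intro hx
        exact Subtype.ext ((QuotientGroup.eq_one_iff _).2 hx)
    exact amenable_of_equiv ((QuotientGroup.quotientMulEquivOfEq hk).symm.trans
      (QuotientGroup.quotientKerEquivOfSurjective q hq)) h1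
  · exact amenable_of_equiv (QuotientGroup.quotientQuotientEquivQuotient _ _ h).symm h2

section res

variable {G : Type u} [Group G]

theorem sofic_of_res (N : Subgroup G) [N.Normal] (hQ : AE (G ⧸ N))
    (hN : ∀ g ∈ N, g ≠ 1 → ∃ (V : Subgroup G) (_ : V.Normal), V ≤ N ∧ g ∉ V ∧
      Amenable (N ⧸ V.subgroupOf N)) : IsSofic G := by
  apply isSofic_of_residually.{u}
  intro g hg
  by_cases hgN : g ∈ N
  · obtain ⟨V, hV, hVN, hgV, hA⟩ := hN g hgN hg
    refine ⟨G ⧸ V, inferInstance, QuotientGroup.mk' V, ?_, fun h =>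
      hgV ((QuotientGroup.eq_one_iff g).1 h)⟩
    let q : G ⧸ V →* G ⧸ N := QuotientGroup.map V N (MonoidHom.id G) (by
      intro x hx
      exact hVN hx)
    refine hQ (G ⧸ V) q ?_ ?_
    · intro y
      induction y using QuotientGroup.induction_on with
      | H z => exact ⟨(z : G ⧸ V), rfl⟩
    · let p : N →* q.ker := ((QuotientGroup.mk' V).comp N.subtype).codRestrict q.ker (by
        intro x
        rw [MonoidHom.mem_ker]
        exact (QuotientGroup.eq_one_iff (x : G)).2 x.2)
      have hp : Function.Surjective p := by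
        rintro ⟨y, hy⟩
        induction y using QuotientGroup.induction_on with
        | H z =>
          have hz : z ∈ N := (QuotientGroup.eq_one_iff z).1 hy
          exact ⟨⟨z, hz⟩, Subtype.ext rfl⟩
      have hk : p.ker = V.subgroupOf N := by
        ext x
        rw [MonoidHom.mem_ker, Subgroup.mem_subgroupOf]
        constructor
        · intro hx
          exact (QuotientGroup.eq_one_iff _).1 (congrArg Subtype.val hx)
        · intro hx
          exact Subtype.ext ((QuotientGroup.eq_one_iff _).2 hx)
      exact amenable_of_equiv ((QuotientGroup.quotientMulEquivOfEq hk).symm.trans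
        (QuotientGroup.quotientKerEquivOfSurjective p hp)) hA
  · exact ⟨G ⧸ N, inferInstance, QuotientGroup.mk' N, hQ.sofic, fun h =>
      hgN ((QuotientGroup.eq_one_iff g).1 h)⟩

theorem mem_of_mem_Vn {N Q : Type*} [Group N] [Group Q] (f : N →* Q) (R : Subgroup Q) {n : ℕ}
    (e : Q ⧸ R ≃ Fin n) (v : N) (hv : v ∈ Vn N n) : f v ∈ R := by
  rw [mem_Vn] at hv
  have h1 := hv ((e.permCongrHom.toMonoidHom).comp ((MulAction.toPermHom Q (Q ⧸ R)).comp f))
  have h2 : MulAction.toPermHom Q (Q ⧸ R) (f v) = 1 := by
    have : e.permCongrHom (MulAction.toPermHom Q (Q ⧸ R) (f v)) = 1 := h1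
    exact (MulEquiv.map_eq_one_iff _).1 this
  have h3 := congrArg (fun σ : Equiv.Perm (Q ⧸ R) => σ ((1 : Q) : Q ⧸ R)) h2
  have h4 : ((f v * 1 : Q) : Q ⧸ R) = ((1 : Q) : Q ⧸ R) := h3
  rw [mul_one] at h4
  have h5 : (f v)⁻¹ * 1 ∈ R := QuotientGroup.eq.1 h4
  rw [mul_one] at h5
  exact inv_mem_iff.1 h5

/-- `N` is residually a group with a solvable normal subgroup of finite index -/
def ResVirtSolv (N : Type u) [Group N] : Prop :=
  ∀ g : N, g ≠ 1 → ∃ (Q : Type u) (_ : Group Q) (f : N →* Q) (R : Subgroup Q),
    R.Normal ∧ R.FiniteIndex ∧ Group.IsSolvable R ∧ f g ≠ 1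

theorem sofic_of_resVirtSolv (N : Subgroup G) [N.Normal] (hQ : AE (G ⧸ N))
    (hN : ResVirtSolv N) : IsSofic G := by
  refine sofic_of_res N hQ ?_
  intro g hgN hg
  obtain ⟨Q, _, f, R, hR, hRf, hRs, hfg⟩ := hN ⟨g, hgN⟩ (fun h => hg (congrArg Subtype.val h))
  -- the finite quotient acts on itself
  have hfin : Finite (Q ⧸ R) := inferInstance
  obtain ⟨n, ⟨e⟩⟩ := Finite.exists_equiv_fin (Q ⧸ R)
  obtain ⟨⟨d, hd⟩⟩ := hRs
  let W : Subgroup G := (Vn N n).map N.subtype
  have hWn : W.Normal := inferInstance
  let V : Subgroup G := (derivedSeries W d).map W.subtype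
  have hVn : V.Normal := inferInstance
  have hWN : W ≤ N := Subgroup.map_subtype_le _
  have hVW : V ≤ W := Subgroup.map_subtype_le _
  refine ⟨V, hVn, hVW.trans hWN, ?_, ?_⟩
  · rintro ⟨x, hx, hxg⟩
    let h : W →* Q := f.comp (Subgroup.inclusion hWN)
    have hhR : ∀ w : W, h w ∈ R := by
      rintro ⟨w, v, hv, hvw⟩
      have h1 := mem_of_mem_Vn f R e v hv
      have h2 : h ⟨w, v, hv, hvw⟩ = f v := congrArg f (Subtype.ext hvw.symm)
      rw [h2]
      exact h1
    let h' : W →* R := h.codRestrict R hhR
    have h1 : h' x ∈ derivedSeries R d :=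
      map_derivedSeries_le_derivedSeries h' d (Subgroup.mem_map_of_mem h' hx)
    rw [hd, Subgroup.mem_bot] at h1
    have h2 : h x = 1 := congrArg Subtype.val h1
    apply hfg
    rw [← h2]
    exact congrArg f (Subtype.ext hxg.symm)
  · refine amenable_two (V.subgroupOf N) (W.subgroupOf N) ?_ ?_ ?_
    · intro x hx
      exact hVW hx
    · let q : W.subgroupOf N →* W ⧸ derivedSeries W d :=
        (QuotientGroup.mk' _).comp (Subgroup.subgroupOfEquivOfLe hWN).toMonoidHom
      have hq : Function.Surjective q := (QuotientGroup.mk'_surjective _).comp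
        (Subgroup.subgroupOfEquivOfLe hWN).surjective
      have hk : q.ker = (V.subgroupOf N).subgroupOf (W.subgroupOf N) := by
        ext x
        rw [MonoidHom.mem_ker, Subgroup.mem_subgroupOf, Subgroup.mem_subgroupOf]
        constructor
        · intro hx
          exact ⟨_, (QuotientGroup.eq_one_iff _).1 hx, rfl⟩
        · rintro ⟨y, hy, hyx⟩
          refine (QuotientGroup.eq_one_iff _).2 ?_
          have : (Subgroup.subgroupOfEquivOfLe hWN) x = y := Subtype.ext hyx.symm
          exact this ▸ hy
      exact amenable_of_equiv ((QuotientGroup.quotientMulEquivOfEq hk).symm.trans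
        (QuotientGroup.quotientKerEquivOfSurjective q hq)).symm (amenable_derived d)
    · have h1 : W.subgroupOf N = Vn N n :=
        Subgroup.comap_map_eq_self_of_injective N.subtype_injective _
      exact amenable_of_equiv (QuotientGroup.quotientMulEquivOfEq h1).symm
        (amenable_of_locallyFinite (locallyFinite_Vn n))

end res

end Pool.Agent.E8helper31.SX
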