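import Pool.Agent.E8helper31.SX.Basic

/-!
Free approximate actions of amenable groups on finite sets: an almost equivariant map to the group,
found by putting the points in a random order.
-/

set_option autoImplicit false

namespace Pool.Agent.E8helper31.SX

open Finset Pool.Agent.H21R2

theorem dens_prod_le {X Y : Type*} [Fintype X] [Fintype Y] (Q : X × Y → Prop)
    (c : ℝ) (hc : 0 ≤ c) (h : ∀ x, dens (fun y => Q (x, y)) ≤ c) : dens Q ≤ c := by
  classical
  unfold dens at *
  rcases isEmpty_or_nonempty X with hX | hX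
  · simp [hc]
  rcases isEmpty_or_nonempty Y with hY | hY
  · simp [hc]
  have hX0 : (0 : ℝ) < Fintype.card X := by exact_mod_cast Fintype.card_pos
  have hY0 : (0 : ℝ) < Fintype.card Y := by exact_mod_cast Fintype.card_pos
  rw [Fintype.card_prod, div_le_iff₀ (by push_cast; positivity)]
  have h1 : ((univ.filter Q).card : ℝ) = ∑ x : X, ((univ.filter fun y => Q (x, y)).card : ℝ) := by
    rw [card_filter, Fintype.sum_prod_type]
    push_cast
    apply sum_congr rfl
    intro x _
    rw [card_filter]
    push_cast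
    rfl
  rw [h1]
  calc ∑ x : X, ((univ.filter fun y => Q (x, y)).card : ℝ) ≤ ∑ _x : X, c * Fintype.card Y := by
        apply sum_le_sum
        intro x _
        have := h x
        rwa [div_le_iff₀ hY0] at this
    _ = c * ((Fintype.card X * Fintype.card Y : ℕ) : ℝ) := by
        rw [sum_const, card_univ, nsmul_eq_mul]
        push_cast
        ring

/-- the first element of a set in a random order lies in a small subset with small probability -/
theorem dens_first {n : ℕ} {W : Type*} (F D : Finset W) (v : W → Fin n)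
    (hv : Set.InjOn v F) (hD : D ⊆ F) (hF : F.Nonempty) :
    dens (fun π : Equiv.Perm (Fin n) => ∃ r ∈ D, ∀ r' ∈ F, π (v r) ≤ π (v r')) ≤
      (D.card : ℝ) / F.card := by
  classical
  let A : W → Finset (Equiv.Perm (Fin n)) := fun r =>
    univ.filter fun π => ∀ r' ∈ F, π (v r) ≤ π (v r')
  have hle : ∀ r ∈ F, ∀ s ∈ F, (A r).card ≤ (A s).card := by
    intro r hr s hs
    refine card_le_card_of_injOn (fun π => π * Equiv.swap (v r) (v s)) ?_ ?_
    · intro π hπ
      simp only [A, coe_filter, mem_univ, true_and, Set.mem_ofPred_eq] at hπ ⊢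
      intro r' hr'
      rw [Equiv.Perm.mul_apply, Equiv.Perm.mul_apply, Equiv.swap_apply_right]
      rcases eq_or_ne (v r') (v r) with h1 | h1
      · rw [h1, Equiv.swap_apply_left]
        exact hπ s hs
      rcases eq_or_ne (v r') (v s) with h2 | h2
      · rw [h2, Equiv.swap_apply_right]
      · rw [Equiv.swap_apply_of_ne_of_ne h1 h2]
        exact hπ r' hr'
    · intro π _ π' _ h
      exact mul_right_cancel h
  obtain ⟨s, hs⟩ := hF
  have hdisj : (F : Set W).PairwiseDisjoint A := by
    intro r hr r' hr' hne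
    rw [Function.onFun, disjoint_left]
    intro π h1 h2
    simp only [A, mem_filter, mem_univ, true_and] at h1 h2
    have h3 : π (v r) = π (v r') := le_antisymm (h1 r' hr') (h2 r hr)
    exact hne (hv hr hr' (π.injective h3))
  have hsum : (F.card : ℝ) * (A s).card ≤ Fintype.card (Equiv.Perm (Fin n)) := by
    have h1 : ∑ r ∈ F, (A r).card ≤ Fintype.card (Equiv.Perm (Fin n)) := by
      rw [← card_biUnion hdisj]
      exact card_le_univ _
    have h2 : ∑ r ∈ F, (A r).card = F.card * (A s).card := by
      rw [sum_congr rfl fun r hr => le_antisymm (hle r hr s hs) (hle s hs r hr), sum_const,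
        smul_eq_mul]
    rw [h2] at h1
    exact_mod_cast h1
  have hF0 : (0 : ℝ) < F.card := by exact_mod_cast card_pos.2 ⟨s, hs⟩
  have hP0 : (0 : ℝ) < Fintype.card (Equiv.Perm (Fin n)) := by exact_mod_cast Fintype.card_pos
  unfold dens
  rw [div_le_div_iff₀ hP0 hF0]
  have h3 : ((univ.filter fun π : Equiv.Perm (Fin n) =>
      ∃ r ∈ D, ∀ r' ∈ F, π (v r) ≤ π (v r')).card : ℝ) ≤ D.card * (A s).card := by
    have h4 : (univ.filter fun π : Equiv.Perm (Fin n) =>
        ∃ r ∈ D, ∀ r' ∈ F, π (v r) ≤ π (v r')) ⊆ D.biUnion A := by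
      intro π hπ
      simp only [mem_filter, mem_univ, true_and] at hπ
      obtain ⟨r, hr, h⟩ := hπ
      exact mem_biUnion.2 ⟨r, hr, by simpa [A] using h⟩
    have h5 := (card_le_card h4).trans card_biUnion_le
    have h6 : ∑ r ∈ D, (A r).card ≤ D.card * (A s).card := by
      rw [← smul_eq_mul, ← sum_const]
      exact sum_le_sum fun r hr => hle r (hD hr) s hs
    exact_mod_cast h5.trans h6
  have h7 : (D.card : ℝ) * (A s).card * F.card ≤
      D.card * Fintype.card (Equiv.Perm (Fin n)) := by
    calc (D.card : ℝ) * (A s).card * F.card = D.card * (F.card * (A s).card) := by ring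
      _ ≤ _ := mul_le_mul_of_nonneg_left hsum (by positivity)
  refine le_trans (le_of_eq ?_) ((mul_le_mul_of_nonneg_right h3 hF0.le).trans h7)
  congr!

section sec

variable {H : Type*} {n : ℕ} (P : Finset H) (hP : P.Nonempty) (σ : H → Equiv.Perm (Fin n))

/-- the element `p` of `P` for which the preimage of the point under `p` comes first -/
noncomputable def sec (z : Fin n × Equiv.Perm (Fin n)) : H :=
  (P.exists_min_image (fun p => z.2 ((σ p).symm z.1)) hP).choose

theorem sec_mem (z : Fin n × Equiv.Perm (Fin n)) : sec P hP σ z ∈ P :=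
  (P.exists_min_image (fun p => z.2 ((σ p).symm z.1)) hP).choose_spec.1

theorem sec_le (z : Fin n × Equiv.Perm (Fin n)) (q : H) (hq : q ∈ P) :
    z.2 ((σ (sec P hP σ z)).symm z.1) ≤ z.2 ((σ q).symm z.1) :=
  (P.exists_min_image (fun p => z.2 ((σ p).symm z.1)) hP).choose_spec.2 q hq

end sec

open Classical in
theorem dens_sec {H : Type*} [Group H] {n : ℕ} (P : Finset H) (hP : P.Nonempty) (h : H)
    (ε : ℝ) (h1 : ((P.filter fun t => h * t ∉ P).card : ℝ) ≤ ε * P.card)
    (h2 : ((P.filter fun t => h⁻¹ * t ∉ P).card : ℝ) ≤ ε * P.card)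
    (σ : H → Equiv.Perm (Fin n)) (x : Fin n)
    (hx1 : ∀ q ∈ P, (σ q).symm (σ h x) = (σ (h⁻¹ * q)).symm x)
    (hx2 : Set.InjOn (fun r => (σ r).symm x) (P ∪ P.image (h⁻¹ * ·) : Finset H)) :
    dens (fun π => sec P hP σ (σ h x, π) ≠ h * sec P hP σ (x, π)) ≤ 2 * ε := by
  set F : Finset H := P ∪ P.image (h⁻¹ * ·) with hF
  set v : H → Fin n := fun r => (σ r).symm x with hv
  let D : Finset H := F.filter fun r => r ∉ P ∨ h * r ∉ P
  have hFn : F.Nonempty := hP.mono subset_union_left
  have hPn : (0 : ℝ) < P.card := by exact_mod_cast hP.card_pos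
  have hFc : (P.card : ℝ) ≤ F.card := by exact_mod_cast card_le_card subset_union_left
  have hε : 0 ≤ ε := by
    by_contra hcon
    push Not at hcon
    have : ε * P.card < 0 := mul_neg_of_neg_of_pos hcon hPn
    have h3 : (0 : ℝ) ≤ ((P.filter fun t => h * t ∉ P).card : ℝ) := by positivity
    linarith
  have hDc : (D.card : ℝ) ≤ 2 * ε * P.card := by
    have hsub : D ⊆ (P.filter fun t => h * t ∉ P) ∪
        (P.filter fun t => h⁻¹ * t ∉ P).image (h⁻¹ * ·) := by
      intro r hr
      simp only [D, hF, mem_filter, mem_union, mem_image] at hr ⊢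
      obtain ⟨h3, h4⟩ := hr
      by_cases h5 : r ∈ P
      · left
        exact ⟨h5, h4.resolve_left (fun h => h h5)⟩
      · right
        obtain ⟨q, hq, rfl⟩ := h3.resolve_left h5
        exact ⟨q, ⟨hq, h5⟩, rfl⟩
    have h5 := (card_le_card hsub).trans ((card_union_le _ _).trans
      (Nat.add_le_add_left card_image_le _))
    have h6 : (D.card : ℝ) ≤ ((P.filter fun t => h * t ∉ P).card : ℝ) +
        ((P.filter fun t => h⁻¹ * t ∉ P).card : ℝ) := by exact_mod_cast h5
    linarith
  refine le_trans (dens_mono ?_) (le_trans (dens_first F D v hx2 (filter_subset _ _) hFn) ?_)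
  · intro π hπ
    obtain ⟨r, hr, hr2⟩ := F.exists_min_image (fun r => π (v r)) hFn
    refine ⟨r, ?_, hr2⟩
    rw [mem_filter]
    refine ⟨hr, ?_⟩
    by_contra hcon
    push Not at hcon
    obtain ⟨h3, h4⟩ := hcon
    apply hπ
    have hs : sec P hP σ (x, π) = r := by
      have h5 := sec_le P hP σ (x, π) r h3
      have h6 := sec_mem P hP σ (x, π)
      have h7 := hr2 _ (mem_union_left (P.image (h⁻¹ * ·)) h6)
      have h8 : π (v (sec P hP σ (x, π))) = π (v r) := le_antisymm h5 h7
      exact hx2 (mem_coe.2 (mem_union_left _ h6)) (mem_coe.2 hr) (π.injective h8)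
    have hs' : h⁻¹ * sec P hP σ (σ h x, π) = r := by
      have h5 := sec_le P hP σ (σ h x, π) (h * r) h4
      have h6 := sec_mem P hP σ (σ h x, π)
      simp only at h5
      rw [hx1 _ h6, hx1 _ h4, inv_mul_cancel_left] at h5
      have h9 : h⁻¹ * sec P hP σ (σ h x, π) ∈ F :=
        mem_union_right _ (mem_image_of_mem (h⁻¹ * ·) h6)
      have h7 := hr2 _ h9
      have h8 : π (v (h⁻¹ * sec P hP σ (σ h x, π))) = π (v r) := le_antisymm h5 h7
      exact hx2 (mem_coe.2 h9) (mem_coe.2 hr) (π.injective h8)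
    rw [hs, ← hs', mul_inv_cancel_left]
  · rw [div_le_iff₀ (lt_of_lt_of_le hPn hFc)]
    exact hDc.trans (mul_le_mul_of_nonneg_left hFc (by positivity))

end Pool.Agent.E8helper31.SX
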