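import Pool.Agent.E8helper31.SX.Res

/-!
The smallest class of groups closed under amalgamation over amenable subgroups, amenable quotients
and directed unions.
-/

set_option autoImplicit false

namespace Pool.Agent.E8helper31.SX

open Finset Pool.Agent.H21R2 Monoid

universe u v

/-- A class `P` of groups is closed: it contains the trivial groups, and it is closed under
isomorphism, under extensions `Γ` of a member `N` by an amenable group `Γ ⧸ N`, under amalgamated
free products of members over a common amenable subgroup, and under directed unions. -/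
structure Closed (P : ∀ (Γ : Type u) [Group Γ], Prop) : Prop where
  triv : ∀ (Γ : Type u) [Group Γ] [Subsingleton Γ], P Γ
  iso : ∀ (Γ Δ : Type u) [Group Γ] [Group Δ], (Γ ≃* Δ) → P Γ → P Δ
  ext : ∀ (Γ : Type u) [Group Γ] (N : Subgroup Γ) [N.Normal], P N → Amenable (Γ ⧸ N) → P Γ
  amalgam : ∀ (ι : Type u) [Nonempty ι] (G : ι → Type u) [∀ i, Group (G i)] (H : Type u) [Group H]
    (φ : ∀ i, H →* G i), (∀ i, Function.Injective (φ i)) → Amenable H → (∀ i, P (G i)) →
      P (PushoutI φ)
  union : ∀ (Γ : Type u) [Group Γ],
    (∀ S : Finset Γ, ∃ K : Subgroup Γ, (S : Set Γ) ⊆ K ∧ P K) → P Γ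

/-- the members of the smallest closed class of groups -/
def Tower (Γ : Type u) [Group Γ] : Prop :=
  ∀ P : ∀ (Γ : Type u) [Group Γ], Prop, Closed P → P Γ

theorem closed_AE : Closed.{u} (fun Γ => AE Γ) where
  triv := fun _ _ _ => AE_of_subsingleton
  iso := fun _ _ _ _ e h => AE_of_equiv e h
  ext := fun _ _ N _ h1 h2 => AE_ext N h1 h2
  amalgam := fun _ _ _ _ _ _ φ h1 h2 h3 => AE_pushout φ h1 h2 h3
  union := fun _ _ h => AE_union h

section tower

variable {Γ : Type u} [Group Γ]

theorem Tower.ae (h : Tower Γ) : AE Γ := h (fun Γ => AE Γ) closed_AE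

theorem closed_tower : Closed.{u} (fun Γ => Tower Γ) where
  triv := fun Γ _ _ P hP => hP.triv Γ
  iso := fun Γ Δ _ _ e h P hP => hP.iso Γ Δ e (h P hP)
  ext := fun Γ _ N _ h1 h2 P hP => hP.ext Γ N (h1 P hP) h2
  amalgam := fun ι _ G _ H _ φ h1 h2 h3 P hP => hP.amalgam ι G H φ h1 h2 (fun i => h3 i P hP)
  union := fun Γ _ h P hP => hP.union Γ fun S => by
    obtain ⟨K, h1, h2⟩ := h S
    exact ⟨K, h1, h2 P hP⟩

theorem tower_of_amenable (h : Amenable Γ) : Tower Γ :=
  closed_tower.ext Γ (⊥ : Subgroup Γ) (closed_tower.triv _)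
    (amenable_of_equiv QuotientGroup.quotientBot.symm h)

end tower

section free

theorem amenable_free_punit : Amenable (FreeGroup PUnit.{u + 1}) := by
  apply amenable_of_cyclic (FreeGroup.of PUnit.unit)
  intro x
  induction x using FreeGroup.induction_on with
  | C1 => exact one_mem _
  | of x => exact Subgroup.mem_zpowers _
  | inv_of x _ => exact inv_mem (Subgroup.mem_zpowers _)
  | mul x y hx hy => exact mul_mem hx hy

theorem tower_free (X : Type u) : Tower (FreeGroup X) := by
  rcases isEmpty_or_nonempty X with hX | hX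
  · have : Subsingleton (FreeGroup X) := inferInstance
    exact closed_tower.triv _
  · let φ : ∀ _ : X, PUnit.{u + 1} →* FreeGroup PUnit.{u + 1} := fun _ => 1
    have h1 : Tower (PushoutI φ) := by
      refine closed_tower.amalgam X (fun _ => FreeGroup PUnit.{u + 1}) PUnit.{u + 1} φ ?_ ?_ ?_
      · intro x a b _
        rfl
      · exact amenable_of_finite
      · intro x
        exact tower_of_amenable amenable_free_punit
    let a : PushoutI φ →* FreeGroup X :=
      PushoutI.lift (fun x => FreeGroup.lift (fun _ => FreeGroup.of x)) 1 (by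
        intro x
        ext z
        show FreeGroup.lift (fun _ : PUnit.{u + 1} => FreeGroup.of x) 1 = 1
        exact map_one _)
    let b : FreeGroup X →* PushoutI φ :=
      FreeGroup.lift (fun x => PushoutI.of x (FreeGroup.of PUnit.unit))
    refine closed_tower.iso _ _ (MonoidHom.toMulEquiv a b ?_ ?_) h1
    · apply PushoutI.hom_ext_nonempty
      intro x
      ext z
      simp [a, b]
    · ext x
      simp [a, b]

end free

end Pool.Agent.E8helper31.SX
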